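import Pool.Agent.WeakTransport.Basic

open MeasureTheory ProbabilityTheory InformationTheory Filter Topology
open scoped ENNReal NNReal RealInnerProductSpace

namespace WT

variable {n : ℕ}

lemma lin_nonneg {A B : ℝ} (h : ∀ t : ℝ, 0 < t → t ≤ 1 → 0 ≤ A + t * B) : 0 ≤ A := by
  have h1 : Tendsto (fun t : ℝ => A + t * B) (𝓝[>] 0) (𝓝 (A + 0 * B)) := by
    refine Tendsto.mono_left ?_ nhdsWithin_le_nhds
    exact (Continuous.tendsto (by fun_prop) 0)
  rw [zero_mul, add_zero] at h1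
  refine ge_of_tendsto h1 ?_
  have h2 : ∀ᶠ t : ℝ in 𝓝[>] 0, t ≤ 1 :=
    nhdsWithin_le_nhds (eventually_le_nhds (show (0:ℝ) < 1 by norm_num))
  filter_upwards [self_mem_nhdsWithin, h2] with t ht1 ht2
  exact h t ht1 ht2

variable {J : Type} [Fintype J]

/-- barycentre -/
noncomputable def bary (y : J → E n) (q : J → ℝ) : E n := ∑ j, q j • y j

/-- the functional -/
noncomputable def Phi (C : ℝ) (y : J → E n) (f : J → ℝ) (x : E n) (q : J → ℝ) : ℝ :=
  ∑ j, q j * f j + ‖x - bary y q‖ ^ 2 / C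

lemma bary_add (y : J → E n) (q q' : J → ℝ) (t : ℝ) :
    bary y (q + t • (q' - q)) = bary y q + t • (bary y q' - bary y q) := by
  unfold bary
  rw [← Finset.sum_sub_distrib, Finset.smul_sum, ← Finset.sum_add_distrib]
  refine Finset.sum_congr rfl fun j _ => ?_
  simp only [Pi.add_apply, Pi.smul_apply, Pi.sub_apply, smul_eq_mul]
  rw [← sub_smul, smul_smul, ← add_smul]

lemma continuous_bary (y : J → E n) : Continuous (bary y) := by
  unfold bary
  fun_prop

lemma first_order {C : ℝ} (hC : 0 < C) (y : J → E n) (f : J → ℝ) (x : E n) (q : J → ℝ)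
    (hq : q ∈ stdSimplex ℝ J) (hmin : ∀ q' ∈ stdSimplex ℝ J, Phi C y f x q ≤ Phi C y f x q')
    (q' : J → ℝ) (hq' : q' ∈ stdSimplex ℝ J) :
    ⟪(2 / C) • (x - bary y q), bary y q' - bary y q⟫ ≤ ∑ j, q' j * f j - ∑ j, q j * f j := by
  set d := bary y q' - bary y q with hd
  set u := x - bary y q with hu
  have h0 : 0 ≤ (∑ j, q' j * f j - ∑ j, q j * f j - ⟪(2 / C) • u, d⟫) := by
    apply lin_nonneg (B := ‖d‖ ^ 2 / C)
    intro t ht0 ht1
    have hmem : q + t • (q' - q) ∈ stdSimplex ℝ J :=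
      (convex_stdSimplex ℝ J).add_smul_sub_mem hq hq' ⟨ht0.le, ht1⟩
    have h1 := hmin _ hmem
    unfold Phi at h1
    rw [bary_add] at h1
    have h2 : ∑ j, (q + t • (q' - q)) j * f j
        = ∑ j, q j * f j + t * (∑ j, q' j * f j - ∑ j, q j * f j) := by
      rw [← Finset.sum_sub_distrib, Finset.mul_sum, ← Finset.sum_add_distrib]
      refine Finset.sum_congr rfl fun j _ => ?_
      simp only [Pi.add_apply, Pi.smul_apply, Pi.sub_apply, smul_eq_mul]
      ring
    have h3 : x - (bary y q + t • (bary y q' - bary y q)) = u - t • d := by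
      rw [hu, hd]; abel
    have h4 : ‖u - t • d‖ ^ 2 = ‖u‖ ^ 2 - 2 * t * ⟪u, d⟫ + t ^ 2 * ‖d‖ ^ 2 := by
      rw [norm_sub_sq_real, inner_smul_right, norm_smul, Real.norm_of_nonneg ht0.le]
      ring
    rw [h2, h3, h4] at h1
    rw [inner_smul_left]
    simp only [conj_trivial]
    have h5 : 0 ≤ t * ((∑ j, q' j * f j - ∑ j, q j * f j - 2 / C * ⟪u, d⟫)
        + t * (‖d‖ ^ 2 / C)) := by
      have h6 : t * ((∑ j, q' j * f j - ∑ j, q j * f j - 2 / C * ⟪u, d⟫)
        + t * (‖d‖ ^ 2 / C)) = t * (∑ j, q' j * f j - ∑ j, q j * f j)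
          + ((‖u‖ ^ 2 - 2 * t * ⟪u, d⟫ + t ^ 2 * ‖d‖ ^ 2) / C - ‖u‖ ^ 2 / C) := by
        field_simp
        ring
      rw [h6]
      linarith
    exact nonneg_of_mul_nonneg_right h5 ht0
  linarith

lemma exists_g [Nonempty J] {C : ℝ} (hC : 0 < C) (y : J → E n) (f : J → ℝ) :
    ∃ (g : E n → ℝ) (s : E n → E n) (q : E n → J → ℝ),
      (∀ x, q x ∈ stdSimplex ℝ J) ∧
      (∀ x, g x = Phi C y f x (q x)) ∧
      (∀ x z, g x + ⟪s x, z - x⟫ + C / 4 * ‖s z - s x‖ ^ 2 ≤ g z) ∧
      (∀ x z, g z ≤ g x + ⟪s x, z - x⟫ + ‖z - x‖ ^ 2 / C) ∧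
      (∀ x j, g x + ⟪s x, y j - x⟫ + C / 4 * ‖s x‖ ^ 2 ≤ f j) := by
  classical
  have hex : ∀ x : E n, ∃ q ∈ stdSimplex ℝ J, ∀ q' ∈ stdSimplex ℝ J,
      Phi C y f x q ≤ Phi C y f x q' := by
    intro x
    have hne : (stdSimplex ℝ J).Nonempty := by
      obtain ⟨j⟩ := (inferInstance : Nonempty J)
      exact ⟨Pi.single j 1, single_mem_stdSimplex ℝ j⟩
    have hcont : ContinuousOn (Phi C y f x) (stdSimplex ℝ J) := by
      have : Continuous (Phi C y f x) := by
        unfold Phi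
        have := continuous_bary y
        fun_prop
      exact this.continuousOn
    obtain ⟨q, hq, hmin⟩ := (isCompact_stdSimplex ℝ J).exists_isMinOn hne hcont
    exact ⟨q, hq, fun q' hq' => hmin hq'⟩
  choose q hq hmin using hex
  refine ⟨fun x => Phi C y f x (q x), fun x => (2 / C) • (x - bary y (q x)), q, hq,
    fun x => rfl, ?_, ?_, ?_⟩
  · intro x z
    have h1 := first_order hC y f x (q x) (hq x) (hmin x) (q z) (hq z)
    set u := x - bary y (q x) with hu
    set u' := z - bary y (q z) with hu'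
    have h2 : bary y (q z) - bary y (q x) = (z - x) - (u' - u) := by
      rw [hu, hu']; abel
    rw [h2, inner_sub_right] at h1
    show Phi C y f x (q x) + ⟪(2 / C) • u, z - x⟫ + C / 4 * ‖(2 / C) • u' - (2 / C) • u‖ ^ 2
      ≤ Phi C y f z (q z)
    unfold Phi
    rw [← hu, ← hu', ← smul_sub, norm_smul, Real.norm_of_nonneg (by positivity)]
    have h3 : ⟪(2 / C) • u, u' - u⟫ = 2 / C * (⟪u, u'⟫ - ‖u‖ ^ 2) := by
      rw [inner_smul_left, inner_sub_right, real_inner_self_eq_norm_sq]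
      simp
    have h4 : ‖u' - u‖ ^ 2 = ‖u'‖ ^ 2 - 2 * ⟪u, u'⟫ + ‖u‖ ^ 2 := by
      rw [norm_sub_sq_real, real_inner_comm]
    have h5 : C / 4 * (2 / C * ‖u' - u‖) ^ 2 = (‖u'‖ ^ 2 - 2 * ⟪u, u'⟫ + ‖u‖ ^ 2) / C := by
      rw [mul_pow, h4]; field_simp; norm_num
    rw [h5]
    rw [h3] at h1
    have h6 : (‖u'‖ ^ 2 - 2 * ⟪u, u'⟫ + ‖u‖ ^ 2) / C
      = ‖u'‖ ^ 2 / C - ‖u‖ ^ 2 / C - 2 / C * (⟪u, u'⟫ - ‖u‖ ^ 2) := by ring
    rw [h6]
    linarith
  · intro x z
    have h1 := hmin z (q x) (hq x)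
    refine h1.trans ?_
    show Phi C y f z (q x) ≤ Phi C y f x (q x) + ⟪(2 / C) • (x - bary y (q x)), z - x⟫
      + ‖z - x‖ ^ 2 / C
    unfold Phi
    set u := x - bary y (q x) with hu
    have h2 : z - bary y (q x) = u + (z - x) := by rw [hu]; abel
    rw [h2, norm_add_sq_real, inner_smul_left]
    simp only [conj_trivial]
    apply le_of_eq
    ring
  · intro x j
    have h1 := first_order hC y f x (q x) (hq x) (hmin x) (Pi.single j 1)
      (single_mem_stdSimplex ℝ j)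
    have h2 : bary y (Pi.single j 1) = y j := by
      unfold bary
      rw [Finset.sum_eq_single j]
      · simp
      · intro b _ hb
        simp [Pi.single_eq_of_ne hb]
      · simp
    have h3 : ∑ i, (Pi.single j (1:ℝ) : J → ℝ) i * f i = f j := by
      rw [Finset.sum_eq_single j]
      · simp
      · intro b _ hb
        simp [Pi.single_eq_of_ne hb]
      · simp
    rw [h2, h3] at h1
    set u := x - bary y (q x) with hu
    have h4 : y j - bary y (q x) = (y j - x) + u := by rw [hu]; abel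
    rw [h4, inner_add_right] at h1
    show Phi C y f x (q x) + ⟪(2 / C) • u, y j - x⟫ + C / 4 * ‖(2 / C) • u‖ ^ 2 ≤ f j
    unfold Phi
    rw [← hu, norm_smul, Real.norm_of_nonneg (by positivity)]
    have h5 : ⟪(2 / C) • u, u⟫ = 2 / C * ‖u‖ ^ 2 := by
      rw [inner_smul_left, real_inner_self_eq_norm_sq]
      simp
    have h6 : C / 4 * (2 / C * ‖u‖) ^ 2 = ‖u‖ ^ 2 / C := by
      field_simp; norm_num
    rw [h6]
    rw [h5] at h1
    have h7 : 2 / C * ‖u‖ ^ 2 = ‖u‖ ^ 2 / C + ‖u‖ ^ 2 / C := by ring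
    linarith

/-- finite minimax, by penalisation -/
lemma minimax {I : Type} [Fintype I] [Nonempty J] {C B : ℝ} (hC : 0 < C) (w : I → ℝ)
    (hw : ∀ i, 0 ≤ w i) (ν : J → ℝ) (x : I → E n) (y : J → E n)
    (h : ∀ f : J → ℝ, ∃ q : I → J → ℝ, (∀ i, q i ∈ stdSimplex ℝ J) ∧
      ∑ i, w i * Phi C y f (x i) (q i) - ∑ j, ν j * f j ≤ B) :
    ∃ q : I → J → ℝ, (∀ i, q i ∈ stdSimplex ℝ J) ∧ (∀ j, ∑ i, w i * q i j = ν j) ∧
      ∑ i, w i * (‖x i - bary y (q i)‖ ^ 2 / C) ≤ B := by
  classical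
  set K : Set (I → J → ℝ) := Set.univ.pi (fun _ => stdSimplex ℝ J) with hK
  have hKmem : ∀ q, q ∈ K ↔ ∀ i, q i ∈ stdSimplex ℝ J := by
    intro q; simp [hK]
  have hKc : IsCompact K := isCompact_univ_pi fun _ => isCompact_stdSimplex ℝ J
  have hKconv : Convex ℝ K := convex_pi fun _ _ => convex_stdSimplex ℝ J
  have hKne : K.Nonempty := by
    obtain ⟨j⟩ := (inferInstance : Nonempty J)
    exact ⟨fun _ => Pi.single j 1, (hKmem _).2 fun _ => single_mem_stdSimplex ℝ j⟩
  set F : (I → J → ℝ) → ℝ := fun q => ∑ i, w i * (‖x i - bary y (q i)‖ ^ 2 / C) with hF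
  set z : (I → J → ℝ) → J → ℝ := fun q j => ∑ i, w i * q i j - ν j with hz
  have hF0 : ∀ q, 0 ≤ F q := fun q => Finset.sum_nonneg fun i _ =>
    mul_nonneg (hw i) (by positivity)
  have hFc : Continuous F := by
    simp only [hF]
    have := continuous_bary y
    refine continuous_finsetSum _ fun i _ => ?_
    have h1 : Continuous (fun q : I → J → ℝ => bary y (q i)) := this.comp (continuous_apply i)
    fun_prop
  have hzc : ∀ j, Continuous (fun q => z q j) := by
    intro j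
    simp only [hz]
    fun_prop
  have hFconv : ∀ q q' : I → J → ℝ, ∀ t : ℝ, 0 ≤ t → t ≤ 1 →
      F (q + t • (q' - q)) ≤ F q + t * (F q' - F q) := by
    intro q q' t ht0 ht1
    simp only [hF]
    rw [← Finset.sum_sub_distrib, Finset.mul_sum, ← Finset.sum_add_distrib]
    refine Finset.sum_le_sum fun i _ => ?_
    have h1 : (q + t • (q' - q)) i = q i + t • (q' i - q i) := rfl
    rw [h1, bary_add]
    have h2 : x i - (bary y (q i) + t • (bary y (q' i) - bary y (q i)))
        = (1 - t) • (x i - bary y (q i)) + t • (x i - bary y (q' i)) := by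
      module
    rw [h2]
    set a := x i - bary y (q i)
    set b := x i - bary y (q' i)
    have h3 : ‖(1 - t) • a + t • b‖ ^ 2 ≤ (1 - t) * ‖a‖ ^ 2 + t * ‖b‖ ^ 2 := by
      have h4 : ‖(1 - t) • a + t • b‖ ≤ (1 - t) * ‖a‖ + t * ‖b‖ := by
        refine (norm_add_le _ _).trans ?_
        rw [norm_smul, norm_smul, Real.norm_of_nonneg ht0, Real.norm_of_nonneg (by linarith)]
      have h5 : ‖(1 - t) • a + t • b‖ ^ 2 ≤ ((1 - t) * ‖a‖ + t * ‖b‖) ^ 2 :=
        pow_le_pow_left₀ (norm_nonneg _) h4 2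
      nlinarith [mul_nonneg (mul_nonneg ht0 (sub_nonneg.2 ht1)) (sq_nonneg (‖a‖ - ‖b‖))]
    have h6 : w i * (‖(1 - t) • a + t • b‖ ^ 2 / C)
        ≤ w i * (((1 - t) * ‖a‖ ^ 2 + t * ‖b‖ ^ 2) / C) :=
      mul_le_mul_of_nonneg_left (div_le_div_of_nonneg_right h3 hC.le) (hw i)
    refine h6.trans (le_of_eq ?_)
    ring
  have hzaff : ∀ q q' : I → J → ℝ, ∀ t : ℝ, ∀ j,
      z (q + t • (q' - q)) j = z q j + t * (z q' j - z q j) := by
    intro q q' t j
    simp only [hz]
    have : ∀ i, w i * (q + t • (q' - q)) i j = w i * q i j + t * (w i * q' i j - w i * q i j) := by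
      intro i
      simp only [Pi.add_apply, Pi.smul_apply, Pi.sub_apply, smul_eq_mul]
      ring
    simp_rw [this]
    rw [Finset.sum_add_distrib, ← Finset.mul_sum, Finset.sum_sub_distrib]
    ring
  -- the Lagrangian
  have hLag : ∀ f : J → ℝ, ∃ q ∈ K, F q + ∑ j, f j * z q j ≤ B := by
    intro f
    obtain ⟨q, hq, hqB⟩ := h f
    refine ⟨q, (hKmem q).2 hq, le_trans (le_of_eq ?_) hqB⟩
    simp only [hF, hz, Phi]
    have h1 : ∑ i, w i * (∑ j, q i j * f j + ‖x i - bary y (q i)‖ ^ 2 / C)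
        = ∑ i, w i * ∑ j, q i j * f j + ∑ i, w i * (‖x i - bary y (q i)‖ ^ 2 / C) := by
      rw [← Finset.sum_add_distrib]
      exact Finset.sum_congr rfl fun i _ => by ring
    rw [h1]
    have h2 : ∑ j, f j * (∑ i, w i * q i j - ν j)
        = ∑ i, w i * ∑ j, q i j * f j - ∑ j, ν j * f j := by
      simp_rw [mul_sub, Finset.sum_sub_distrib, Finset.mul_sum]
      rw [Finset.sum_comm]
      congr 1
      · exact Finset.sum_congr rfl fun i _ => Finset.sum_congr rfl fun j _ => by ring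
      · exact Finset.sum_congr rfl fun j _ => by ring
    rw [h2]
    ring
  -- penalised minimisers
  have hpen : ∀ k : ℕ, ∃ q ∈ K, F q + 2 * k * ∑ j, z q j ^ 2 ≤ B := by
    intro k
    have hcont : ContinuousOn (fun q => F q + k * ∑ j, z q j ^ 2) K := by
      have : Continuous (fun q => F q + k * ∑ j, z q j ^ 2) := by
        refine hFc.add (continuous_const.mul (continuous_finsetSum _ fun j _ => (hzc j).pow 2))
      exact this.continuousOn
    obtain ⟨q, hq, hmin⟩ := hKc.exists_isMinOn hKne hcont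
    refine ⟨q, hq, ?_⟩
    obtain ⟨q', hq', hB⟩ := hLag (fun j => 2 * k * z q j)
    have h0 : 0 ≤ F q' - F q + 2 * k * ∑ j, z q j * (z q' j - z q j) := by
      apply lin_nonneg (B := k * ∑ j, (z q' j - z q j) ^ 2)
      intro t ht0 ht1
      have hmem : q + t • (q' - q) ∈ K := hKconv.add_smul_sub_mem hq hq' ⟨ht0.le, ht1⟩
      have h1 : F q + k * ∑ j, z q j ^ 2 ≤ F (q + t • (q' - q))
          + k * ∑ j, z (q + t • (q' - q)) j ^ 2 := hmin hmem
      have h2 := hFconv q q' t ht0.le ht1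
      simp_rw [hzaff] at h1
      have h3 : ∑ j, (z q j + t * (z q' j - z q j)) ^ 2 = ∑ j, z q j ^ 2
          + 2 * t * ∑ j, z q j * (z q' j - z q j) + t ^ 2 * ∑ j, (z q' j - z q j) ^ 2 := by
        rw [Finset.mul_sum, Finset.mul_sum, ← Finset.sum_add_distrib, ← Finset.sum_add_distrib]
        exact Finset.sum_congr rfl fun j _ => by ring
      rw [h3] at h1
      have h5 : 0 ≤ t * (F q' - F q + 2 * k * ∑ j, z q j * (z q' j - z q j)
          + t * (k * ∑ j, (z q' j - z q j) ^ 2)) := by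
        nlinarith
      exact nonneg_of_mul_nonneg_right h5 ht0
    have h4 : ∑ j, z q j * (z q' j - z q j) = ∑ j, z q j * z q' j - ∑ j, z q j ^ 2 := by
      rw [← Finset.sum_sub_distrib]
      exact Finset.sum_congr rfl fun j _ => by ring
    have h5 : ∑ j, 2 * k * z q j * z q' j = 2 * k * ∑ j, z q j * z q' j := by
      rw [Finset.mul_sum]
      exact Finset.sum_congr rfl fun j _ => by ring
    rw [h5] at hB
    rw [h4] at h0
    linarith
  choose qk hqkK hqkB using hpen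
  obtain ⟨q, hqK, φ, hφ, hlim⟩ := hKc.tendsto_subseq hqkK
  refine ⟨q, (hKmem q).1 hqK, fun j => ?_, ?_⟩
  · -- z q j = 0
    have h1 : Tendsto (fun k => z (qk (φ k)) j) atTop (𝓝 (z q j)) :=
      ((hzc j).tendsto q).comp hlim
    have h2 : Tendsto (fun k => z (qk (φ k)) j) atTop (𝓝 0) := by
      have h3 : ∀ k : ℕ, 1 ≤ k → z (qk (φ k)) j ^ 2 ≤ B / (2 * k) := by
        intro k hk
        have hk0 : (0:ℝ) < k := by exact_mod_cast hk
        have h4 := hqkB (φ k)
        have h5 : z (qk (φ k)) j ^ 2 ≤ ∑ j, z (qk (φ k)) j ^ 2 :=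
          Finset.single_le_sum (f := fun j => z (qk (φ k)) j ^ 2)
            (fun _ _ => sq_nonneg _) (Finset.mem_univ j)
        have h6 : (k:ℝ) ≤ φ k := by exact_mod_cast hφ.id_le k
        have h7 := hF0 (qk (φ k))
        rw [le_div_iff₀ (by positivity)]
        have h8 : 0 ≤ z (qk (φ k)) j ^ 2 := sq_nonneg _
        have h9 : z (qk (φ k)) j ^ 2 * (2 * k) ≤ 2 * φ k * ∑ j, z (qk (φ k)) j ^ 2 := by
          calc z (qk (φ k)) j ^ 2 * (2 * k) = 2 * k * z (qk (φ k)) j ^ 2 := by ring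
            _ ≤ 2 * φ k * z (qk (φ k)) j ^ 2 := by
                apply mul_le_mul_of_nonneg_right _ h8
                linarith
            _ ≤ _ := mul_le_mul_of_nonneg_left h5 (by positivity)
        linarith
      have h4 : Tendsto (fun k : ℕ => B / (2 * (k:ℝ))) atTop (𝓝 0) := by
        apply Tendsto.div_atTop tendsto_const_nhds
        exact Tendsto.const_mul_atTop (by norm_num) tendsto_natCast_atTop_atTop
      have h5 : Tendsto (fun k => z (qk (φ k)) j ^ 2) atTop (𝓝 0) := by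
        refine squeeze_zero' (Eventually.of_forall fun k => sq_nonneg _) ?_ h4
        filter_upwards [eventually_ge_atTop 1] with k hk using h3 k hk
      have h6 := h5.sqrt
      simp only [Real.sqrt_sq_eq_abs, Real.sqrt_zero] at h6
      exact (tendsto_zero_iff_abs_tendsto_zero _).2 h6
    have h3 := tendsto_nhds_unique h1 h2
    simp only [hz] at h3
    linarith
  · have h1 : Tendsto (fun k => F (qk (φ k))) atTop (𝓝 (F q)) :=
      (hFc.tendsto q).comp hlim
    refine le_of_tendsto' h1 (fun k => ?_)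
    have h4 := hqkB (φ k)
    have h5 : 0 ≤ 2 * (φ k : ℝ) * ∑ j, z (qk (φ k)) j ^ 2 :=
      mul_nonneg (by positivity) (Finset.sum_nonneg fun _ _ => sq_nonneg _)
    linarith

end WT
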