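import Pool.Agent.WeakTransport.Basic

open MeasureTheory ProbabilityTheory InformationTheory Filter Topology
open scoped ENNReal NNReal RealInnerProductSpace

set_option linter.unusedSectionVars false

namespace WT

variable {n : ℕ}

lemma young_pt {h F : ℝ} (hh : 0 ≤ h) : h * F ≤ klFun h + Real.exp F - 1 := by
  rw [klFun_apply]
  rcases eq_or_lt_of_le hh with h0 | h0
  · rw [← h0]; simp; exact (Real.exp_pos F).le
  · have h1 := Real.add_one_le_exp (F - Real.log h)
    have h2 : Real.exp (F - Real.log h) = Real.exp F / h := by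
      rw [Real.exp_sub, Real.exp_log h0]
    rw [h2, le_div_iff₀ h0] at h1
    nlinarith

lemma young {μ ν : Measure (E n)} [IsProbabilityMeasure μ] [IsProbabilityMeasure ν]
    (hfin : klDiv ν μ ≠ ⊤) (F : E n → ℝ) (hF : Integrable F ν)
    (hexp : Integrable (fun x => Real.exp (F x)) μ) (h1 : ∫ x, Real.exp (F x) ∂μ ≤ 1) :
    ∫ x, F x ∂ν ≤ (klDiv ν μ).toReal := by
  obtain ⟨hac, hllr⟩ := klDiv_ne_top_iff.1 hfin
  have hkl : Integrable (fun x => klFun (ν.rnDeriv μ x).toReal) μ :=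
    (integrable_klFun_rnDeriv_iff hac).2 hllr
  have : ν.HaveLebesgueDecomposition μ := Measure.haveLebesgueDecomposition_of_sigmaFinite ν μ
  rw [toReal_klDiv_eq_integral_klFun hac, ← integral_toReal_rnDeriv_mul hac]
  have i1 : Integrable (fun x => klFun (ν.rnDeriv μ x).toReal + Real.exp (F x)) μ := hkl.add hexp
  have i2 : Integrable (fun x => klFun (ν.rnDeriv μ x).toReal + Real.exp (F x) - 1) μ :=
    i1.sub (integrable_const _)
  calc ∫ x, (ν.rnDeriv μ x).toReal * F x ∂μ
      ≤ ∫ x, (klFun (ν.rnDeriv μ x).toReal + Real.exp (F x) - 1) ∂μ :=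
        integral_mono ((integrable_toReal_rnDeriv_mul_iff hac).2 hF) i2
          (fun x => young_pt ENNReal.toReal_nonneg)
    _ = ∫ x, klFun (ν.rnDeriv μ x).toReal ∂μ + ∫ x, Real.exp (F x) ∂μ - 1 := by
        rw [integral_sub i1 (integrable_const _), integral_add hkl hexp]
        simp
    _ ≤ _ := by linarith

lemma integrable_of_exp {μ ν : Measure (E n)} [IsProbabilityMeasure μ] [IsProbabilityMeasure ν]
    (hfin : klDiv ν μ ≠ ⊤) (F : E n → ℝ) (hFm : Measurable F) (hF0 : ∀ x, 0 ≤ F x)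
    (hexp : Integrable (fun x => Real.exp (F x)) μ) : Integrable F ν := by
  obtain ⟨hac, hllr⟩ := klDiv_ne_top_iff.1 hfin
  have hkl : Integrable (fun x => klFun (ν.rnDeriv μ x).toReal) μ :=
    (integrable_klFun_rnDeriv_iff hac).2 hllr
  have : ν.HaveLebesgueDecomposition μ := Measure.haveLebesgueDecomposition_of_sigmaFinite ν μ
  rw [← integrable_toReal_rnDeriv_mul_iff hac]
  refine Integrable.mono' (hkl.add hexp)
    ((Measure.measurable_rnDeriv ν μ).ennreal_toReal.mul hFm).aestronglyMeasurable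
    (ae_of_all _ fun x => ?_)
  rw [Real.norm_of_nonneg (mul_nonneg ENNReal.toReal_nonneg (hF0 x))]
  have := young_pt (h := (ν.rnDeriv μ x).toReal) (F := F x) ENNReal.toReal_nonneg
  simp only [Pi.add_apply]
  linarith

section Cells

variable {J : Type} [Fintype J] [DecidableEq J] [MeasurableSpace J] [MeasurableSingletonClass J]

lemma integral_cells {ν : Measure (E n)} (j : E n → J) (hj : Measurable j) (F : J → E n → ℝ)
    (hF : ∀ i, IntegrableOn (F i) (j ⁻¹' {i}) ν) :
    Integrable (fun x => F (j x) x) ν ∧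
    ∫ x, F (j x) x ∂ν = ∑ i, ∫ x in j ⁻¹' {i}, F i x ∂ν := by
  have hm : ∀ i, MeasurableSet (j ⁻¹' {i}) := fun i => hj (measurableSet_singleton i)
  have heq : (fun x => F (j x) x) = fun x => ∑ i, (j ⁻¹' {i}).indicator (F i) x := by
    ext x
    rw [Finset.sum_eq_single (j x)]
    · rw [Set.indicator_of_mem (by simp)]
    · intro b _ hb
      rw [Set.indicator_of_notMem]
      intro h
      exact hb (by simpa using h.symm)
    · simp
  have hi : ∀ i, Integrable ((j ⁻¹' {i}).indicator (F i)) ν := fun i =>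
    (integrable_indicator_iff (hm i)).2 (hF i)
  rw [heq]
  refine ⟨integrable_finsetSum _ fun i _ => hi i, ?_⟩
  rw [integral_finsetSum _ fun i _ => hi i]
  exact Finset.sum_congr rfl fun i _ => integral_indicator (hm i)

lemma cell_identity {ν : Measure (E n)} [IsProbabilityMeasure ν]
    (h2 : Integrable (fun x => ‖x‖ ^ 2) ν) (A : Set (E n)) (y : E n)
    (hy : ∫ x in A, x ∂ν = ν.real A • y) (c : E n) :
    ∫ x in A, ‖x - c‖ ^ 2 ∂ν = ∫ x in A, ‖x - y‖ ^ 2 ∂ν + ν.real A * ‖y - c‖ ^ 2 := by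
  have hmem : MemLp (fun x : E n => x) 2 ν :=
    (memLp_two_iff_integrable_sq_norm measurable_id.aestronglyMeasurable).2 h2
  have h1 : Integrable (fun x : E n => x) ν := hmem.integrable (by norm_num)
  have hsq : ∀ c : E n, IntegrableOn (fun x => ‖x - c‖ ^ 2) A ν := fun c =>
    ((hmem.sub (memLp_const c)).integrable_norm_pow (by norm_num)).integrableOn
  have hin : IntegrableOn (fun x => 2 * ⟪x - y, y - c⟫ + ‖y - c‖ ^ 2) A ν := by
    have : Integrable (fun x => x - y) ν := h1.sub (integrable_const y)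
    have h3 : Integrable (fun x => ⟪x - y, y - c⟫) ν := this.inner_const (y - c)
    exact ((h3.const_mul 2).add (integrable_const _)).integrableOn
  have e1 : ∀ x : E n, ‖x - c‖ ^ 2 = ‖x - y‖ ^ 2 + (2 * ⟪x - y, y - c⟫ + ‖y - c‖ ^ 2) := by
    intro x
    have : x - c = (x - y) + (y - c) := by abel
    rw [this, norm_add_sq_real]
    ring
  rw [show (fun x : E n => ‖x - c‖ ^ 2)
    = fun x => ‖x - y‖ ^ 2 + (2 * ⟪x - y, y - c⟫ + ‖y - c‖ ^ 2) from funext e1]
  rw [integral_add (hsq y) hin]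
  congr 1
  have h3 : Integrable (fun x => x - y) (ν.restrict A) :=
    (h1.sub (integrable_const y)).integrableOn
  have h4 : Integrable (fun x => 2 * ⟪x - y, y - c⟫) (ν.restrict A) :=
    (h3.inner_const (y - c)).const_mul 2
  rw [integral_add h4 (integrable_const _), integral_const_mul]
  have h5 : ∫ x in A, ⟪x - y, y - c⟫ ∂ν = 0 := by
    have h6 : ∫ x in A, ⟪x - y, y - c⟫ ∂ν = ⟪∫ x in A, (x - y) ∂ν, y - c⟫ := by
      have := integral_inner (𝕜 := ℝ) h3 (y - c)
      rw [real_inner_comm, ← this]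
      refine integral_congr_ae (ae_of_all _ fun x => ?_)
      exact real_inner_comm _ _
    rw [h6, integral_sub h1.integrableOn (integrable_const y), hy]
    simp
  rw [h5]
  simp

end Cells

/-- quantisation of a measure with second moment -/
lemma quantise (ν : Measure (E n)) [IsProbabilityMeasure ν]
    (h2 : Integrable (fun x => ‖x‖ ^ 2) ν) {δ : ℝ} (hδ : 0 < δ) :
    ∃ (k : ℕ) (j : E n → Fin k) (y : Fin k → E n), Measurable j ∧
      (∀ i, ∫ x in j ⁻¹' {i}, x ∂ν = ν.real (j ⁻¹' {i}) • y i) ∧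
      Integrable (fun x => ‖x - y (j x)‖ ^ 2) ν ∧
      ∫ x, ‖x - y (j x)‖ ^ 2 ∂ν ≤ δ := by
  classical
  have hmem : MemLp (fun x : E n => x) 2 ν :=
    (memLp_two_iff_integrable_sq_norm measurable_id.aestronglyMeasurable).2 h2
  have h1 : Integrable (fun x : E n => x) ν := hmem.integrable (by norm_num)
  have hsq : ∀ c : E n, Integrable (fun x => ‖x - c‖ ^ 2) ν := fun c =>
    (hmem.sub (memLp_const c)).integrable_norm_pow (by norm_num)
  obtain ⟨g, hg, hgm⟩ := hmem.exists_simpleFunc_eLpNorm_sub_lt (by norm_num)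
    (ε := ENNReal.ofReal (Real.sqrt δ)) (by
      rw [Ne, ENNReal.ofReal_eq_zero, not_le]
      exact Real.sqrt_pos.2 hδ)
  have hgd : MemLp (fun x => x - g x) 2 ν := hmem.sub hgm
  have hgδ : ∫ x, ‖x - g x‖ ^ 2 ∂ν ≤ δ := by
    have h3 : eLpNorm (fun x => x - g x) 2 ν
        = ENNReal.ofReal (Real.sqrt (∫ x, ‖x - g x‖ ^ 2 ∂ν)) := by
      rw [hgd.eLpNorm_eq_integral_rpow_norm (by norm_num) (by norm_num)]
      congr 1
      rw [Real.sqrt_eq_rpow]
      norm_num
    have h4 : eLpNorm (fun x => x - g x) 2 ν < ENNReal.ofReal (Real.sqrt δ) := hg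
    rw [h3, ENNReal.ofReal_lt_ofReal_iff (Real.sqrt_pos.2 hδ)] at h4
    exact ((Real.sqrt_lt_sqrt_iff (integral_nonneg fun x => sq_nonneg _)).1 h4).le
  -- cells
  set e := g.range.equivFin with he
  set j : E n → Fin g.range.card := fun x => e ⟨g x, g.mem_range_self x⟩ with hj
  have hjm : Measurable j := by
    have h3 : Measurable (fun x => (⟨g x, g.mem_range_self x⟩ : g.range)) :=
      g.measurable.subtype_mk
    have h4 : Measurable (e : g.range → Fin g.range.card) := measurable_of_finite _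
    exact h4.comp h3
  set y : Fin g.range.card → E n := fun i =>
    (ν.real (j ⁻¹' {i}))⁻¹ • ∫ x in j ⁻¹' {i}, x ∂ν with hy
  have hyi : ∀ i, ∫ x in j ⁻¹' {i}, x ∂ν = ν.real (j ⁻¹' {i}) • y i := by
    intro i
    by_cases h0 : ν.real (j ⁻¹' {i}) = 0
    · rw [h0, zero_smul]
      have h3 : ν (j ⁻¹' {i}) = 0 := (measureReal_eq_zero_iff).1 h0
      rw [Measure.restrict_eq_zero.2 h3, integral_zero_measure]
    · simp only [hy]
      rw [smul_smul, mul_inv_cancel₀ h0, one_smul]
  have hc1 := integral_cells (ν := ν) j hjm (fun i x => ‖x - y i‖ ^ 2)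
    (fun i => (hsq (y i)).integrableOn)
  have hc2 := integral_cells (ν := ν) j hjm (fun i x => ‖x - (e.symm i : E n)‖ ^ 2)
    (fun i => (hsq _).integrableOn)
  refine ⟨_, j, y, hjm, hyi, hc1.1, ?_⟩
  have h5 : ∀ x, ((e.symm (j x) : g.range) : E n) = g x := by
    intro x
    simp only [hj]
    rw [Equiv.symm_apply_apply]
  have h6 : ∫ x, ‖x - (e.symm (j x) : E n)‖ ^ 2 ∂ν = ∫ x, ‖x - g x‖ ^ 2 ∂ν := by
    simp_rw [h5]
  have h7 : ∫ x, ‖x - y (j x)‖ ^ 2 ∂ν ≤ ∫ x, ‖x - (e.symm (j x) : E n)‖ ^ 2 ∂ν := by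
    rw [hc1.2, hc2.2]
    refine Finset.sum_le_sum fun i _ => ?_
    rw [cell_identity h2 _ (y i) (hyi i) (e.symm i : E n)]
    have : 0 ≤ ν.real (j ⁻¹' {i}) * ‖y i - (e.symm i : E n)‖ ^ 2 := by positivity
    linarith
  linarith

end WT
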