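import Pool.Agent.WeakTransport.Star3
import Pool.Agent.WeakTransport.Minimax
import Pool.Agent.WeakTransport.Quantise

open MeasureTheory ProbabilityTheory InformationTheory Filter Topology
open scoped ENNReal NNReal RealInnerProductSpace

set_option linter.unusedSectionVars false

namespace WT

variable {n : ℕ}

/-- the kernel built from a finite transition matrix -/
lemma exists_kernel {μ ν : Measure (E n)} [IsProbabilityMeasure μ] [IsProbabilityMeasure ν]
    (hν1 : Integrable (fun x => x) ν)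
    {k₁ k₂ : ℕ} (i : E n → Fin k₁) (him : Measurable i) (j : E n → Fin k₂) (hjm : Measurable j)
    (ys : Fin k₂ → E n)
    (hys : ∀ l, ∫ x in j ⁻¹' {l}, x ∂ν = ν.real (j ⁻¹' {l}) • ys l)
    (q : Fin k₁ → Fin k₂ → ℝ) (hq : ∀ a, q a ∈ stdSimplex ℝ (Fin k₂))
    (hqν : ∀ l, ∑ a, μ.real (i ⁻¹' {a}) * q a l = ν.real (j ⁻¹' {l})) :
    ∃ κ : Kernel (E n) (E n), IsMarkovKernel κ ∧ κ ∘ₘ μ = ν ∧
      ∀ x, ∫ y, y ∂(κ x) = bary ys (q (i x)) := by
  classical
  have hjA : ∀ l, MeasurableSet (j ⁻¹' {l}) := fun l => hjm (measurableSet_singleton l)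
  have hiA : ∀ l, MeasurableSet (i ⁻¹' {l}) := fun l => him (measurableSet_singleton l)
  -- the pieces
  set ρ : Fin k₂ → Measure (E n) := fun l =>
    if ν (j ⁻¹' {l}) = 0 then Measure.dirac (ys l) else ν[|j ⁻¹' {l}] with hρ
  have hρp : ∀ l, IsProbabilityMeasure (ρ l) := by
    intro l
    by_cases h : ν (j ⁻¹' {l}) = 0
    · simp only [hρ, h, if_true]; infer_instance
    · simp only [hρ, h, if_false]; exact cond_isProbabilityMeasure h
  have hρint : ∀ l, Integrable (fun x => x) (ρ l) := by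
    intro l
    by_cases h : ν (j ⁻¹' {l}) = 0
    · simp only [hρ, h, if_true]
      exact (integrable_dirac (f := fun x : E n => x) (a := ys l) (by simp))
    · simp only [hρ, h, if_false]
      unfold ProbabilityTheory.cond
      exact (hν1.integrableOn).smul_measure (ENNReal.inv_ne_top.2 h)
  have hρmean : ∀ l, ∫ x, x ∂(ρ l) = ys l := by
    intro l
    by_cases h : ν (j ⁻¹' {l}) = 0
    · simp only [hρ, h, if_true]
      exact integral_dirac _ _
    · simp only [hρ, h, if_false]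
      unfold ProbabilityTheory.cond
      rw [integral_smul_measure, hys, smul_smul, measureReal_def, ENNReal.toReal_inv,
        inv_mul_cancel₀, one_smul]
      exact ENNReal.toReal_ne_zero.2 ⟨h, measure_ne_top _ _⟩
  have hρν : ∀ l (s : Set (E n)), MeasurableSet s →
      ν (j ⁻¹' {l}) * ρ l s = ν (j ⁻¹' {l} ∩ s) := by
    intro l s hs
    by_cases h : ν (j ⁻¹' {l}) = 0
    · rw [h, zero_mul]
      exact (measure_mono_null Set.inter_subset_left h).symm
    · simp only [hρ, h, if_false]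
      rw [mul_comm]
      exact cond_mul_eq_inter (hjA l) s ν
  set κ0 : Fin k₁ → Measure (E n) := fun a => ∑ l, ENNReal.ofReal (q a l) • ρ l with hκ0
  set κ : Kernel (E n) (E n) := (Kernel.ofFunOfCountable κ0).comap i him with hκ
  have hκx : ∀ x, κ x = κ0 (i x) := fun x => rfl
  have hκ0u : ∀ a, κ0 a Set.univ = 1 := by
    intro a
    simp only [hκ0]
    rw [Measure.finsetSum_apply]
    simp only [Measure.smul_apply, smul_eq_mul, measure_univ, mul_one]
    rw [← ENNReal.ofReal_sum_of_nonneg (fun l _ => (hq a).1 l), (hq a).2, ENNReal.ofReal_one]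
  refine ⟨κ, ⟨fun x => ⟨by rw [hκx]; exact hκ0u _⟩⟩, ?_, ?_⟩
  · ext s hs
    rw [Measure.bind_apply hs κ.aemeasurable]
    have h1 : ∀ x, κ x s = ∑ l, ENNReal.ofReal (q (i x) l) * ρ l s := by
      intro x
      rw [hκx]
      simp only [hκ0]
      rw [Measure.finsetSum_apply]
      simp only [Measure.smul_apply, smul_eq_mul]
    simp_rw [h1]
    have hqm : ∀ l, Measurable (fun x => ENNReal.ofReal (q (i x) l)) := by
      intro l
      have : Measurable (fun a : Fin k₁ => ENNReal.ofReal (q a l)) := measurable_of_finite _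
      exact this.comp him
    rw [lintegral_finsetSum _ (fun l _ => (hqm l).mul_const _)]
    have h2 : ∀ l, ∫⁻ x, ENNReal.ofReal (q (i x) l) * ρ l s ∂μ = ν (j ⁻¹' {l} ∩ s) := by
      intro l
      rw [lintegral_mul_const _ (hqm l), ← hρν l s hs]
      congr 1
      have h3 := integral_cells (ν := μ) i him (fun a _ => q a l)
        (fun a => (integrable_const _).integrableOn)
      rw [← ofReal_integral_eq_lintegral_ofReal h3.1 (ae_of_all _ fun x => (hq (i x)).1 l), h3.2]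
      simp only [integral_const, smul_eq_mul, measureReal_restrict_apply MeasurableSet.univ,
        Set.univ_inter]
      rw [hqν l, ofReal_measureReal]
    simp_rw [h2]
    have h4 : ∀ l, ν (j ⁻¹' {l} ∩ s) = (ν.restrict s) (j ⁻¹' {l}) := fun l =>
      (Measure.restrict_apply (hjA l)).symm
    simp_rw [h4]
    rw [sum_measure_preimage_singleton Finset.univ (fun l _ => hjA l)]
    simp
  · intro x
    rw [hκx]
    simp only [hκ0]
    rw [integral_finsetSum_measure (fun l _ => (hρint l).smul_measure ENNReal.ofReal_ne_top)]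
    unfold bary
    refine Finset.sum_congr rfl fun l _ => ?_
    rw [integral_smul_measure, hρmean, ENNReal.toReal_ofReal ((hq (i x)).1 l)]

section Main

variable {μ : Measure (E n)} [IsProbabilityMeasure μ] {m : E n} {ε κ P M C : ℝ}

lemma sq_int_of_centred {ν : Measure (E n)} [IsProbabilityMeasure ν]
    (h : Integrable (fun x => ‖x - m‖ ^ 2) ν) : Integrable (fun x => ‖x‖ ^ 2) ν := by
  have hb : Integrable (fun x => 2 * ‖x - m‖ ^ 2 + 2 * ‖m‖ ^ 2) ν :=
    (h.const_mul 2).add (integrable_const _)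
  refine Integrable.mono' hb (by fun_prop) (ae_of_all _ fun x => ?_)
  rw [Real.norm_of_nonneg (sq_nonneg _)]
  have h3 : ‖x‖ ≤ ‖x - m‖ + ‖m‖ := by
    calc ‖x‖ = ‖(x - m) + m‖ := by congr 1; abel
      _ ≤ _ := norm_add_le _ _
  have h4 : ‖x‖ ^ 2 ≤ (‖x - m‖ + ‖m‖) ^ 2 := pow_le_pow_left₀ (norm_nonneg _) h3 2
  nlinarith [sq_nonneg (‖x - m‖ - ‖m‖)]

/-- The main inequality, up to `3 δ / C`. -/
lemma main_delta (hμ : Good μ m ε κ P M) (hε : 0 < ε) (hκ : 0 ≤ κ) (hP : 0 ≤ P) (hM : 1 ≤ M)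
    (hC : C = C0 ε κ P M) (ν : Measure (E n)) [IsProbabilityMeasure ν]
    (hfin : klDiv ν μ ≠ ⊤) {δ : ℝ} (hδ : 0 < δ) :
    weakCost (quad (1 / Real.sqrt C)) μ ν
      ≤ ENNReal.ofReal ((klDiv ν μ).toReal + 3 * δ / C) := by
  classical
  have hS0 : 0 < M / ε := by positivity
  have hL0 : 0 < 2 / ε * Real.exp (1 / (2 * ε)) * M := by positivity
  have hC0 : 0 < C := by rw [hC]; unfold C0; linarith
  obtain ⟨H, hH⟩ : ∃ H, H = (klDiv ν μ).toReal := ⟨_, rfl⟩
  rw [← hH]
  have hH0 : 0 ≤ H := by rw [hH]; exact ENNReal.toReal_nonneg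
  -- second moments
  have hμ2 : Integrable (fun x => ‖x‖ ^ 2) μ := sq_int_of_centred (hμ.int_sq hε).1
  have hνc : Integrable (fun x => ‖x - m‖ ^ 2) ν := by
    have h1 := integrable_of_exp hfin (fun x => ε * ‖x - m‖ ^ 2) (by fun_prop)
      (fun x => by positivity) hμ.expi
    have h2 := h1.const_mul ε⁻¹
    refine h2.congr (ae_of_all _ fun x => ?_)
    field_simp
  have hν2 : Integrable (fun x => ‖x‖ ^ 2) ν := sq_int_of_centred hνc
  have hν1 : Integrable (fun x : E n => x) ν :=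
    ((memLp_two_iff_integrable_sq_norm measurable_id.aestronglyMeasurable).2 hν2).integrable
      (by norm_num)
  have hμ1 : Integrable (fun x : E n => x) μ := hμ.int
  -- quantisation
  obtain ⟨k₁, i, xs, him, hxs, hxi, hxδ⟩ := quantise μ hμ2 hδ
  obtain ⟨k₂, j, ys, hjm, hys, hyi, hyδ⟩ := quantise ν hν2 hδ
  have : Nonempty (Fin k₂) := ⟨j 0⟩
  have hiA : ∀ l, MeasurableSet (i ⁻¹' {l}) := fun l => him (measurableSet_singleton l)
  -- the bound for all f
  have hbound : ∀ f : Fin k₂ → ℝ, ∃ q : Fin k₁ → Fin k₂ → ℝ,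
      (∀ a, q a ∈ stdSimplex ℝ (Fin k₂)) ∧
      ∑ a, μ.real (i ⁻¹' {a}) * Phi C ys f (xs a) (q a)
        - ∑ l, ν.real (j ⁻¹' {l}) * f l ≤ H + 2 * δ / C := by
    intro f
    obtain ⟨g, s, q, hq, hgq, hG1, hG2, hG3⟩ := exists_g hC0 ys f
    obtain ⟨hsc, hgc⟩ := cont_s hC0 hG1 hG2
    refine ⟨fun a => q (xs a), fun a => hq _, ?_⟩
    simp_rw [← hgq]
    obtain ⟨hgi, hexpi⟩ := star_int hμ hε hM hC0 hG1 hG2
    have hstar := star hμ hε hκ hP hM hC hG1 hG2
    obtain ⟨I, hI⟩ : ∃ I, I = ∫ y, g y ∂μ := ⟨_, rfl⟩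
    rw [← hI] at hexpi hstar
    -- (a) Jensen on cells
    have ha : ∑ a, μ.real (i ⁻¹' {a}) * g (xs a) ≤ I := by
      have h1 := integral_cells (ν := μ) i him (fun _ x => g x) (fun _ => hgi.integrableOn)
      rw [hI, h1.2]
      refine Finset.sum_le_sum fun a _ => ?_
      have h2 : Integrable (fun x => x - xs a) (μ.restrict (i ⁻¹' {a})) :=
        (hμ1.sub (integrable_const _)).integrableOn
      have h3 : ∫ x in i ⁻¹' {a}, (g (xs a) + ⟪s (xs a), x - xs a⟫) ∂μ
          = μ.real (i ⁻¹' {a}) * g (xs a) := by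
        rw [integral_add (integrable_const _) (h2.const_inner _), integral_inner h2,
          integral_sub hμ1.integrableOn (integrable_const _), hxs a]
        simp
      rw [← h3]
      refine integral_mono ((integrable_const _).add (h2.const_inner _)) hgi.integrableOn
        (fun x => ?_)
      have h4 := hG1 (xs a) x
      have h5 : 0 ≤ C / 4 * ‖s x - s (xs a)‖ ^ 2 := by positivity
      show g (xs a) + ⟪s (xs a), x - xs a⟫ ≤ g x
      linarith
    -- (b) the lower bound for ∑ ν_j f_j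
    have hsi : Integrable (fun x => C / 8 * ‖s x‖ ^ 2) ν := by
      have hb : Integrable (fun x => C / 8 * (2 * ‖s m‖ ^ 2 + 8 / C ^ 2 * ‖x - m‖ ^ 2)) ν :=
        ((integrable_const _).add (hνc.const_mul _)).const_mul _
      refine Integrable.mono' hb (by fun_prop) (ae_of_all _ fun x => ?_)
      rw [Real.norm_of_nonneg (by positivity)]
      apply mul_le_mul_of_nonneg_left _ (by positivity)
      have h1 := hG1 m x
      have h2 := hG2 m x
      have h3 : C / 4 * ‖s x - s m‖ ^ 2 ≤ ‖x - m‖ ^ 2 / C := by linarith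
      have h4 : ‖s x - s m‖ ^ 2 ≤ 4 / C ^ 2 * ‖x - m‖ ^ 2 := by
        have : ‖s x - s m‖ ^ 2 = 4 / C * (C / 4 * ‖s x - s m‖ ^ 2) := by field_simp
        rw [this]
        calc 4 / C * (C / 4 * ‖s x - s m‖ ^ 2) ≤ 4 / C * (‖x - m‖ ^ 2 / C) :=
              mul_le_mul_of_nonneg_left h3 (by positivity)
          _ = 4 / C ^ 2 * ‖x - m‖ ^ 2 := by ring
      have h5 : ‖s x‖ ≤ ‖s x - s m‖ + ‖s m‖ := by
        calc ‖s x‖ = ‖(s x - s m) + s m‖ := by congr 1; abel
          _ ≤ _ := norm_add_le _ _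
      have h6 : ‖s x‖ ^ 2 ≤ (‖s x - s m‖ + ‖s m‖) ^ 2 :=
        pow_le_pow_left₀ (norm_nonneg _) h5 2
      have h7 : 8 / C ^ 2 * ‖x - m‖ ^ 2 = 2 * (4 / C ^ 2 * ‖x - m‖ ^ 2) := by ring
      rw [h7]
      nlinarith [sq_nonneg (‖s x - s m‖ - ‖s m‖)]
    have hgν : Integrable g ν := by
      have hb : Integrable (fun x => |g m| + (‖s m‖ ^ 2 + ‖x - m‖ ^ 2) + ‖x - m‖ ^ 2 / C) ν :=
        ((integrable_const _).add ((integrable_const _).add hνc)).add (hνc.div_const C)
      refine Integrable.mono' hb hgc.measurable.aestronglyMeasurable (ae_of_all _ fun x => ?_)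
      rw [Real.norm_eq_abs, abs_le]
      have h1 := hG1 m x
      have h2 := hG2 m x
      have h3 : 0 ≤ C / 4 * ‖s x - s m‖ ^ 2 := by positivity
      have h4 := abs_le.1 (abs_real_inner_le_norm (s m) (x - m))
      have h5 := neg_abs_le (g m)
      have h6 := le_abs_self (g m)
      have h7 : 0 ≤ ‖x - m‖ ^ 2 / C := by positivity
      have h8 : ‖s m‖ * ‖x - m‖ ≤ ‖s m‖ ^ 2 + ‖x - m‖ ^ 2 := by
        nlinarith [sq_nonneg (‖s m‖ - ‖x - m‖), norm_nonneg (s m), norm_nonneg (x - m)]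
      constructor
      · linarith [h4.1]
      · linarith [h4.2]
    have hfi := integral_cells (ν := ν) j hjm (fun l _ => f l)
      (fun l => (integrable_const _).integrableOn)
    have hb : ∫ x, (g x + C / 8 * ‖s x‖ ^ 2) ∂ν - 2 / C * δ
        ≤ ∑ l, ν.real (j ⁻¹' {l}) * f l := by
      have h1 : ∑ l, ν.real (j ⁻¹' {l}) * f l = ∫ x, f (j x) ∂ν := by
        rw [hfi.2]
        simp
      rw [h1]
      have i1 : Integrable (fun x => g x + C / 8 * ‖s x‖ ^ 2) ν := hgν.add hsi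
      have i2 : Integrable (fun x => 2 / C * ‖x - ys (j x)‖ ^ 2) ν := hyi.const_mul _
      have h2 : ∫ x, (g x + C / 8 * ‖s x‖ ^ 2) ∂ν - 2 / C * δ
          ≤ ∫ x, ((g x + C / 8 * ‖s x‖ ^ 2) - 2 / C * ‖x - ys (j x)‖ ^ 2) ∂ν := by
        rw [integral_sub i1 i2, integral_const_mul]
        have := mul_le_mul_of_nonneg_left hyδ (show 0 ≤ 2 / C by positivity)
        linarith
      refine h2.trans (integral_mono (i1.sub i2) hfi.1 fun x => ?_)
      show (g x + C / 8 * ‖s x‖ ^ 2) - 2 / C * ‖x - ys (j x)‖ ^ 2 ≤ f (j x)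
      have h3 := hG3 x (j x)
      have h4 := (abs_le.1 (abs_real_inner_le_norm (s x) (ys (j x) - x))).1
      rw [norm_sub_rev] at h4
      have h5 : ‖s x‖ * ‖x - ys (j x)‖ ≤ C / 8 * ‖s x‖ ^ 2 + 2 / C * ‖x - ys (j x)‖ ^ 2 := by
        have h6 : 0 ≤ (C * ‖s x‖ - 4 * ‖x - ys (j x)‖) ^ 2 / (8 * C) := by positivity
        have h7 : (C * ‖s x‖ - 4 * ‖x - ys (j x)‖) ^ 2 / (8 * C)
          = C / 8 * ‖s x‖ ^ 2 + 2 / C * ‖x - ys (j x)‖ ^ 2 - ‖s x‖ * ‖x - ys (j x)‖ := by
          field_simp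
          ring
        linarith
      linarith
    -- (c) Young
    have hF : Integrable (fun x => -(g x - I) - C / 8 * ‖s x‖ ^ 2) ν :=
      ((hgν.sub (integrable_const _)).neg).sub hsi
    have hc := young hfin _ hF hexpi hstar
    rw [← hH] at hc
    have h7 : ∫ x, (-(g x - I) - C / 8 * ‖s x‖ ^ 2) ∂ν
        = I - ∫ x, (g x + C / 8 * ‖s x‖ ^ 2) ∂ν := by
      have h8 : (fun x => -(g x - I) - C / 8 * ‖s x‖ ^ 2)
          = fun x => I - (g x + C / 8 * ‖s x‖ ^ 2) := by ext x; ring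
      have i1 : Integrable (fun x => g x + C / 8 * ‖s x‖ ^ 2) ν := hgν.add hsi
      rw [h8, integral_sub (integrable_const _) i1]
      simp
    rw [h7] at hc
    have h9 : 2 * δ / C = 2 / C * δ := by ring
    rw [h9]
    linarith
  -- minimax
  obtain ⟨q, hq, hqν, hqB⟩ := minimax hC0 (fun a => μ.real (i ⁻¹' {a}))
    (fun a => measureReal_nonneg) (fun l => ν.real (j ⁻¹' {l})) xs ys hbound
  obtain ⟨κ', hκM, hκν, hκb⟩ := exists_kernel hν1 i him j hjm ys hys q hq hqν
  unfold weakCost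
  refine (iInf_le_of_le κ' (iInf_le_of_le hκM (iInf_le_of_le hκν le_rfl))).trans ?_
  simp_rw [hκb]
  unfold quad
  have hsqC : (1 / Real.sqrt C) ^ 2 = 1 / C := by
    rw [div_pow, one_pow, Real.sq_sqrt hC0.le]
  rw [hsqC]
  -- the exact cost
  have hsqi : ∀ c : E n, Integrable (fun x => ‖x - c‖ ^ 2) μ := fun c =>
    (((memLp_two_iff_integrable_sq_norm measurable_id.aestronglyMeasurable).2 hμ2).sub
      (memLp_const c)).integrable_norm_pow (by norm_num)
  have hc1 := integral_cells (ν := μ) i him (fun a x => 1 / C * ‖x - bary ys (q a)‖ ^ 2)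
    (fun a => ((hsqi _).const_mul _).integrableOn)
  have hc2 := integral_cells (ν := μ) i him (fun a x => ‖x - xs a‖ ^ 2)
    (fun a => (hsqi _).integrableOn)
  rw [← ofReal_integral_eq_lintegral_ofReal hc1.1 (ae_of_all _ fun x => by positivity)]
  apply ENNReal.ofReal_le_ofReal
  rw [hc1.2]
  have h1 : ∑ a, ∫ x in i ⁻¹' {a}, 1 / C * ‖x - bary ys (q a)‖ ^ 2 ∂μ
      = 1 / C * ∫ x, ‖x - xs (i x)‖ ^ 2 ∂μ
        + ∑ a, μ.real (i ⁻¹' {a}) * (‖xs a - bary ys (q a)‖ ^ 2 / C) := by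
    rw [hc2.2, Finset.mul_sum, ← Finset.sum_add_distrib]
    refine Finset.sum_congr rfl fun a _ => ?_
    rw [integral_const_mul, cell_identity hμ2 _ (xs a) (hxs a) (bary ys (q a))]
    ring
  rw [h1]
  have h2 : 1 / C * ∫ x, ‖x - xs (i x)‖ ^ 2 ∂μ ≤ 1 / C * δ :=
    mul_le_mul_of_nonneg_left hxδ (by positivity)
  have h3 : 3 * δ / C = 1 / C * δ + 2 * δ / C := by ring
  rw [h3]
  linarith

lemma main_plus (hμ : Good μ m ε κ P M) (hε : 0 < ε) (hκ : 0 ≤ κ) (hP : 0 ≤ P) (hM : 1 ≤ M)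
    (hC : C = C0 ε κ P M) (hC0 : 0 < C) : TPlus (quad (1 / Real.sqrt C)) μ := by
  intro ν _ _
  by_cases hfin : klDiv ν μ = ⊤
  · rw [hfin]; exact le_top
  refine ENNReal.le_of_forall_pos_le_add fun η hη _ => ?_
  have hδ : 0 < (η : ℝ) * C / 3 := by
    have : (0:ℝ) < η := hη
    positivity
  refine (main_delta hμ hε hκ hP hM hC ν hfin hδ).trans ?_
  have h1 : 3 * ((η : ℝ) * C / 3) / C = η := by field_simp
  rw [h1, ENNReal.ofReal_add ENNReal.toReal_nonneg η.coe_nonneg, ENNReal.ofReal_toReal hfin,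
    ENNReal.ofReal_coe_nnreal]

end Main

lemma weakCost_mono {θ θ' : ℝ → ℝ≥0∞} (h : ∀ t, θ t ≤ θ' t) (μ₁ μ₂ : Measure (E n)) :
    weakCost θ μ₁ μ₂ ≤ weakCost θ' μ₁ μ₂ := by
  unfold weakCost
  exact iInf_mono fun κ => iInf_mono fun _ => iInf_mono fun _ => lintegral_mono fun x => h _

lemma quad_mono {a b : ℝ} (ha : 0 ≤ a) (hab : a ≤ b) (t : ℝ) : quad a t ≤ quad b t := by
  unfold quad
  apply ENNReal.ofReal_le_ofReal
  exact mul_le_mul_of_nonneg_right (pow_le_pow_left₀ ha hab 2) (sq_nonneg t)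

theorem main (n : ℕ) {a : ℝ} (ha : 0 < a) : ∃ a' : ℝ, 0 < a' ∧
    ∀ μ : Measure (E n), IsProbabilityMeasure μ → Integrable (fun x => x) μ →
      TMinus (quad a) μ → TMinus (quad a') μ ∧ TPlus (quad a') μ := by
  obtain ⟨M, hM1, hM⟩ := exists_good n ha
  have hε : 0 < a ^ 2 / 2 := by positivity
  have hκ : 0 ≤ 1 / (4 * a ^ 2) := by positivity
  have hP : 0 ≤ 2 / a ^ 2 := by positivity
  obtain ⟨C, hC⟩ : ∃ C, C = C0 (a ^ 2 / 2) (1 / (4 * a ^ 2)) (2 / a ^ 2) M := ⟨_, rfl⟩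
  have hC0 : 0 < C := by
    have h1 : 0 < M / (a ^ 2 / 2) := by positivity
    have h2 : 0 < 2 / (a ^ 2 / 2) * Real.exp (1 / (2 * (a ^ 2 / 2))) * M := by positivity
    rw [hC]; unfold C0; linarith
  have hCs : 0 < 1 / Real.sqrt C := by positivity
  refine ⟨min a (1 / Real.sqrt C), lt_min ha hCs, fun μ _ hμ hT => ⟨?_, ?_⟩⟩
  · intro ν h1 h2
    exact (weakCost_mono (quad_mono (lt_min ha hCs).le (min_le_left _ _)) _ _).trans (hT ν h1 h2)
  · intro ν h1 h2
    exact (weakCost_mono (quad_mono (lt_min ha hCs).le (min_le_right _ _)) _ _).trans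
      (main_plus (hM μ hμ hT) hε hκ hP hM1 hC hC0 ν h1 h2)

end WT
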