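import Pool.Agent.WeakTransport.Defs

open MeasureTheory ProbabilityTheory InformationTheory Filter Topology
open scoped ENNReal NNReal RealInnerProductSpace

namespace WT

variable {n : ℕ}

lemma integral_comp' {μ : Measure (E n)} {κ : Kernel (E n) (E n)} [IsMarkovKernel κ]
    {f : E n → ℝ} (hf : Integrable f (κ ∘ₘ μ)) :
    ∫ z, f z ∂(κ ∘ₘ μ) = ∫ x, ∫ y, f y ∂(κ x) ∂μ := by
  rw [Measure.comp_eq_comp_const_apply] at hf ⊢
  rw [ProbabilityTheory.Kernel.integral_comp hf]
  simp

/-- the basic inequality coming from `T⁻` -/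
lemma key_B {a : ℝ} (ha : 0 < a) {μ : Measure (E n)} [IsProbabilityMeasure μ]
    (hμ : Integrable (fun x => x) μ)
    (hT : TMinus (quad a) μ) (ν : Measure (E n)) [IsProbabilityMeasure ν]
    (hν : Integrable (fun x => x) ν) (hfin : klDiv ν μ ≠ ⊤) (G : E n → ℝ) (s : E n → E n)
    (hsm : Measurable s) (hGs : ∀ x z, G x + ⟪s x, z - x⟫ ≤ G z)
    (hGν : Integrable G ν) (hGμ : Integrable G μ) (hs2 : Integrable (fun x => ‖s x‖ ^ 2) ν) :
    ∫ x, G x ∂ν - ∫ x, G x ∂μ
      ≤ Real.sqrt (∫ x, ‖s x‖ ^ 2 ∂ν) * Real.sqrt ((klDiv ν μ).toReal) / a := by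
  set H := (klDiv ν μ).toReal with hH
  have hH0 : 0 ≤ H := ENNReal.toReal_nonneg
  -- for every δ > 0
  have key : ∀ δ : ℝ, 0 < δ → ∫ x, G x ∂ν - ∫ x, G x ∂μ
      ≤ Real.sqrt (∫ x, ‖s x‖ ^ 2 ∂ν) * Real.sqrt (H + δ) / a := by
    intro δ hδ
    have h1 := hT ν inferInstance hν
    have h2 : weakCost (quad a) ν μ < ENNReal.ofReal (H + δ) := by
      refine lt_of_le_of_lt h1 ?_
      rw [← ENNReal.ofReal_toReal hfin]
      exact (ENNReal.ofReal_lt_ofReal_iff (by linarith)).2 (by linarith)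
    unfold weakCost at h2
    simp only [iInf_lt_iff] at h2
    obtain ⟨κ, hκ, hbind, hcost⟩ := h2
    set b : E n → E n := fun x => ∫ y, y ∂(κ x) with hb
    have hbm : StronglyMeasurable b := (measurable_id.stronglyMeasurable).integral_kernel
    have hμ' : Integrable (fun x : E n => x) (κ ∘ₘ ν) := by rw [hbind]; exact hμ
    have hGμ' : Integrable G (κ ∘ₘ ν) := by rw [hbind]; exact hGμ
    have hae1 := Measure.ae_integrable_of_integrable_comp hμ'
    have hae2 := Measure.ae_integrable_of_integrable_comp hGμ'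
    have hGint : Integrable (fun x => ∫ y, G y ∂(κ x)) ν := by
      have h3 := Measure.integrable_integral_norm_of_integrable_comp hGμ'
      have h4 : AEStronglyMeasurable (fun x => ∫ y, G y ∂(κ x)) ν := by
        have := (Measure.comp_eq_comp_const_apply (κ := κ) (μ := ν)) ▸ hGμ'.1
        have := MeasureTheory.AEStronglyMeasurable.integral_kernel_comp this
        simpa using this
      refine Integrable.mono h3 h4 (ae_of_all _ fun x => ?_)
      refine (norm_integral_le_integral_norm _).trans_eq ?_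
      rw [Real.norm_of_nonneg (integral_nonneg fun y => norm_nonneg _)]
    have hcost2 : ∫⁻ x, ENNReal.ofReal (a ^ 2 * ‖x - b x‖ ^ 2) ∂ν < ENNReal.ofReal (H + δ) := hcost
    have hm2 : AEStronglyMeasurable (fun x => a ^ 2 * ‖x - b x‖ ^ 2) ν := by
      have h5 : StronglyMeasurable (fun x => x - b x) := measurable_id.stronglyMeasurable.sub hbm
      exact (((h5.norm).pow 2).const_mul (a ^ 2)).aestronglyMeasurable
    have hInt2 : Integrable (fun x => a ^ 2 * ‖x - b x‖ ^ 2) ν := by
      refine ⟨hm2, ?_⟩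
      rw [hasFiniteIntegral_iff_ofReal (ae_of_all _ fun x => by positivity)]
      exact hcost2.trans ENNReal.ofReal_lt_top
    have hval2 : ∫ x, a ^ 2 * ‖x - b x‖ ^ 2 ∂ν ≤ H + δ := by
      rw [integral_eq_lintegral_of_nonneg_ae (ae_of_all _ fun x => by positivity) hm2]
      exact ENNReal.toReal_le_of_le_ofReal (by linarith) hcost2.le
    have hInt3 : Integrable (fun x => ‖x - b x‖ ^ 2) ν := by
      have := hInt2.const_mul ((a ^ 2)⁻¹)
      refine this.congr (ae_of_all _ fun x => ?_)
      field_simp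
    have hval3 : ∫ x, ‖x - b x‖ ^ 2 ∂ν ≤ (H + δ) / a ^ 2 := by
      rw [integral_const_mul] at hval2
      rw [le_div_iff₀ (by positivity)]
      linarith
    -- cross term
    have hcrossm : AEStronglyMeasurable (fun x => ‖s x‖ * ‖x - b x‖) ν := by
      have h5 : StronglyMeasurable (fun x => x - b x) := measurable_id.stronglyMeasurable.sub hbm
      exact (hsm.stronglyMeasurable.norm.mul h5.norm).aestronglyMeasurable
    have hcross : Integrable (fun x => ‖s x‖ * ‖x - b x‖) ν := by
      refine Integrable.mono' ((hs2.add hInt3)) hcrossm (ae_of_all _ fun x => ?_)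
      rw [Real.norm_of_nonneg (by positivity)]
      simp only [Pi.add_apply]
      nlinarith [sq_nonneg (‖s x‖ - ‖x - b x‖), norm_nonneg (s x), norm_nonneg (x - b x)]
    have hineq : ∫ x, G x ∂ν - ∫ x, ‖s x‖ * ‖x - b x‖ ∂ν ≤ ∫ x, G x ∂μ := by
      rw [← integral_sub hGν hcross]
      have : ∫ x, G x ∂μ = ∫ x, ∫ y, G y ∂(κ x) ∂ν := by
        rw [← integral_comp' hGμ', hbind]
      rw [this]
      refine integral_mono_ae (hGν.sub hcross) hGint ?_
      filter_upwards [hae1, hae2] with x hx1 hx2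
      have hx3 : Integrable (fun y => y - x) (κ x) := hx1.sub (integrable_const x)
      have h6 : ∫ y, (G x + ⟪s x, y - x⟫) ∂(κ x) ≤ ∫ y, G y ∂(κ x) := by
        refine integral_mono ?_ hx2 (fun y => hGs x y)
        refine (integrable_const _).add ?_
        exact hx3.const_inner (s x)
      have h7 : ∫ y, (G x + ⟪s x, y - x⟫) ∂(κ x) = G x + ⟪s x, b x - x⟫ := by
        rw [integral_add (integrable_const _) (hx3.const_inner (s x))]
        rw [integral_const]
        simp only [probReal_univ, one_smul]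
        congr 1
        rw [integral_inner hx3, integral_sub hx1 (integrable_const x)]
        simp [hb]
      rw [h7] at h6
      have h8 : -(‖s x‖ * ‖x - b x‖) ≤ ⟪s x, b x - x⟫ := by
        have := abs_real_inner_le_norm (s x) (b x - x)
        rw [norm_sub_rev] at this
        exact neg_le_of_abs_le this
      show G x - ‖s x‖ * ‖x - b x‖ ≤ ∫ y, G y ∂(κ x)
      linarith
    have hCS : ∫ x, ‖s x‖ * ‖x - b x‖ ∂ν
        ≤ Real.sqrt (∫ x, ‖s x‖ ^ 2 ∂ν) * Real.sqrt (∫ x, ‖x - b x‖ ^ 2 ∂ν) := by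
      have hp : Real.HolderConjugate 2 2 := by
        constructor <;> norm_num
      have h5 : StronglyMeasurable (fun x => x - b x) := measurable_id.stronglyMeasurable.sub hbm
      have h9 := integral_mul_le_Lp_mul_Lq_of_nonneg (μ := ν) hp
        (f := fun x => ‖s x‖) (g := fun x => ‖x - b x‖)
        (ae_of_all _ fun x => norm_nonneg _) (ae_of_all _ fun x => norm_nonneg _)
        (by
          rw [show ENNReal.ofReal 2 = 2 by norm_num]
          exact (memLp_two_iff_integrable_sq hsm.stronglyMeasurable.norm.aestronglyMeasurable).2 hs2)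
        (by
          rw [show ENNReal.ofReal 2 = 2 by norm_num]
          exact (memLp_two_iff_integrable_sq h5.norm.aestronglyMeasurable).2 hInt3)
      simpa [Real.sqrt_eq_rpow] using h9
    have h10 : Real.sqrt (∫ x, ‖x - b x‖ ^ 2 ∂ν) ≤ Real.sqrt (H + δ) / a := by
      rw [show Real.sqrt (H + δ) / a = Real.sqrt ((H + δ) / a ^ 2) from by
        rw [Real.sqrt_div' _ (by positivity), Real.sqrt_sq ha.le]]
      exact Real.sqrt_le_sqrt hval3
    have h11 : ∫ x, ‖s x‖ * ‖x - b x‖ ∂ν
        ≤ Real.sqrt (∫ x, ‖s x‖ ^ 2 ∂ν) * (Real.sqrt (H + δ) / a) :=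
      hCS.trans (mul_le_mul_of_nonneg_left h10 (Real.sqrt_nonneg _))
    rw [mul_div_assoc]
    linarith
  -- let δ → 0
  have hlim : Tendsto (fun δ : ℝ => Real.sqrt (∫ x, ‖s x‖ ^ 2 ∂ν) * Real.sqrt (H + δ) / a)
      (𝓝[>] 0) (𝓝 (Real.sqrt (∫ x, ‖s x‖ ^ 2 ∂ν) * Real.sqrt (H + 0) / a)) := by
    refine Tendsto.mono_left ?_ nhdsWithin_le_nhds
    exact (Continuous.tendsto (by fun_prop) 0)
  rw [add_zero] at hlim
  exact ge_of_tendsto hlim (by
    filter_upwards [self_mem_nhdsWithin] with δ hδ using key δ hδ)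

end WT
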