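import Mathlib

/-!
# Weak (barycentric) transport costs: definitions

All measures live on `ℝⁿ = EuclideanSpace ℝ (Fin n)` with its Euclidean norm.
-/

open MeasureTheory ProbabilityTheory InformationTheory
open scoped ENNReal

namespace WT

/-- `ℝⁿ` with its Euclidean norm. -/
abbrev E (n : ℕ) := EuclideanSpace ℝ (Fin n)

/-- The weak (barycentric) transport cost from `μ₁` to `μ₂` for the cost `θ`: the infimum over all
couplings `p(x, dy) μ₁(dx)` of `μ₁` and `μ₂` (i.e. over all Markov kernels `p` with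
`∫ p(x, ·) μ₁(dx) = μ₂`) of `∫ θ(|x - ∫ y p(x, dy)|) μ₁(dx)`. -/
noncomputable def weakCost {n : ℕ} (θ : ℝ → ℝ≥0∞) (μ₁ μ₂ : Measure (E n)) : ℝ≥0∞ :=
  ⨅ (p : Kernel (E n) (E n)) (_ : IsMarkovKernel p) (_ : p ∘ₘ μ₁ = μ₂),
    ∫⁻ x, θ ‖x - ∫ y, y ∂(p x)‖ ∂μ₁

/-- The quadratic cost `θ(a t) = a² t²`. -/
noncomputable def quad (a : ℝ) : ℝ → ℝ≥0∞ := fun t => ENNReal.ofReal (a ^ 2 * t ^ 2)

/-- The inequality `T⁻(θ)` for `μ`: for every probability measure `ν` with finite first moment, the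
weak cost from `ν` to `μ` is at most the relative entropy `H(ν | μ)`. -/
def TMinus {n : ℕ} (θ : ℝ → ℝ≥0∞) (μ : Measure (E n)) : Prop :=
  ∀ ν : Measure (E n), IsProbabilityMeasure ν → Integrable (fun x => x) ν →
    weakCost θ ν μ ≤ klDiv ν μ

/-- The inequality `T⁺(θ)` for `μ`: for every probability measure `ν` with finite first moment, the
weak cost from `μ` to `ν` is at most the relative entropy `H(ν | μ)`. -/
def TPlus {n : ℕ} (θ : ℝ → ℝ≥0∞) (μ : Measure (E n)) : Prop :=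
  ∀ ν : Measure (E n), IsProbabilityMeasure ν → Integrable (fun x => x) ν →
    weakCost θ μ ν ≤ klDiv ν μ

/-- The inequality `T(θ)`: both `T⁻(θ)` and `T⁺(θ)`. -/
def TBoth {n : ℕ} (θ : ℝ → ℝ≥0∞) (μ : Measure (E n)) : Prop :=
  TMinus θ μ ∧ TPlus θ μ

end WT
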