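import Pool.Agent.WeakTransport.Basic

open MeasureTheory ProbabilityTheory InformationTheory Filter Topology
open scoped ENNReal NNReal RealInnerProductSpace

namespace WT

variable {n : ℕ}

/-- version of `key_B` for bounded densities -/
lemma key_B' {a : ℝ} (ha : 0 < a) {μ : Measure (E n)} [IsProbabilityMeasure μ]
    (hμ : Integrable (fun x => x) μ)
    (hT : TMinus (quad a) μ) (h : E n → ℝ) (hhm : Measurable h) (hh0 : ∀ x, 0 ≤ h x) (K : ℝ)
    (hhK : ∀ x, h x ≤ K) (hh1 : ∫ x, h x ∂μ = 1) (G : E n → ℝ) (s : E n → E n)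
    (hsm : Measurable s) (hGs : ∀ x z, G x + ⟪s x, z - x⟫ ≤ G z)
    (hGμ : Integrable G μ) (hs2 : Integrable (fun x => ‖s x‖ ^ 2) μ) :
    ∫ x, h x * G x ∂μ - ∫ x, G x ∂μ
      ≤ Real.sqrt (∫ x, h x * ‖s x‖ ^ 2 ∂μ) * Real.sqrt (∫ x, klFun (h x) ∂μ) / a := by
  have hhi : Integrable h μ := by
    refine Integrable.mono' (integrable_const K) hhm.aestronglyMeasurable (ae_of_all _ fun x => ?_)
    rw [Real.norm_of_nonneg (hh0 x)]
    exact hhK x
  set ρ : E n → ℝ≥0∞ := fun x => ENNReal.ofReal (h x) with hρ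
  have hρm : Measurable ρ := hhm.ennreal_ofReal
  set ν : Measure (E n) := μ.withDensity ρ with hν
  have hνp : IsProbabilityMeasure ν := by
    constructor
    rw [hν, withDensity_apply _ MeasurableSet.univ, Measure.restrict_univ,
      ← ofReal_integral_eq_lintegral_ofReal hhi (ae_of_all _ hh0), hh1, ENNReal.ofReal_one]
  have hac : ν ≪ μ := withDensity_absolutelyContinuous _ _
  have hrn : ν.rnDeriv μ =ᵐ[μ] ρ := Measure.rnDeriv_withDensity μ hρm
  have hkli : Integrable (fun x => klFun (h x)) μ := by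
    obtain ⟨B, hB⟩ := (isCompact_Icc (a := (0:ℝ)) (b := K)).exists_bound_of_continuousOn
      continuous_klFun.continuousOn
    refine Integrable.mono' (integrable_const B)
      (measurable_klFun.comp hhm).aestronglyMeasurable (ae_of_all _ fun x => ?_)
    exact hB _ ⟨hh0 x, hhK x⟩
  have hkl : klDiv ν μ = ENNReal.ofReal (∫ x, klFun (h x) ∂μ) := by
    rw [klDiv_eq_lintegral_klFun_of_ac hac,
      ofReal_integral_eq_lintegral_ofReal hkli (ae_of_all _ fun x => klFun_nonneg (hh0 x))]
    refine lintegral_congr_ae ?_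
    filter_upwards [hrn] with x hx
    rw [hx, hρ]
    simp only
    rw [ENNReal.toReal_ofReal (hh0 x)]
  have hfin : klDiv ν μ ≠ ⊤ := by rw [hkl]; exact ENNReal.ofReal_ne_top
  have hconv : ∀ f : E n → ℝ, ∫ x, f x ∂ν = ∫ x, h x * f x ∂μ := by
    intro f
    rw [hν, integral_withDensity_eq_integral_toReal_smul hρm
      (ae_of_all _ fun x => ENNReal.ofReal_lt_top)]
    refine integral_congr_ae (ae_of_all _ fun x => ?_)
    simp only [hρ, smul_eq_mul]
    rw [ENNReal.toReal_ofReal (hh0 x)]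
  have hinti : ∀ f : E n → ℝ, Integrable f μ → Integrable f ν := by
    intro f hf
    rw [hν, integrable_withDensity_iff hρm (ae_of_all _ fun x => ENNReal.ofReal_lt_top)]
    refine Integrable.mono' (hf.norm.mul_const K)
      (hf.1.mul (hρm.ennreal_toReal).aestronglyMeasurable) (ae_of_all _ fun x => ?_)
    simp only [hρ]
    rw [ENNReal.toReal_ofReal (hh0 x), norm_mul, Real.norm_of_nonneg (hh0 x)]
    exact mul_le_mul_of_nonneg_left (hhK x) (norm_nonneg _)
  have hν1 : Integrable (fun x => x) ν := by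
    have h1 := hinti _ hμ.norm
    exact (integrable_norm_iff (measurable_id.aestronglyMeasurable)).1 h1
  have := key_B ha hμ hT ν hν1 hfin G s hsm hGs (hinti _ hGμ) hGμ (hinti _ hs2)
  rw [hconv, hconv, hkl, ENNReal.toReal_ofReal
    (integral_nonneg fun x => klFun_nonneg (hh0 x))] at this
  exact this

/-- sub-Gaussian bound for the Laplace transform -/
lemma laplace {a : ℝ} (ha : 0 < a) {μ : Measure (E n)} [IsProbabilityMeasure μ]
    (hμ : Integrable (fun x => x) μ)
    (hT : TMinus (quad a) μ) (ξ : E n) :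
    ∫⁻ x, ENNReal.ofReal (Real.exp ⟪ξ, x⟫) ∂μ
      ≤ ENNReal.ofReal (Real.exp (⟪ξ, ∫ x, x ∂μ⟫ + ‖ξ‖ ^ 2 / (4 * a ^ 2))) := by
  set m := ∫ x, x ∂μ with hm
  -- truncated version
  have key : ∀ R : ℝ, ∫⁻ x in Metric.closedBall (0 : E n) R, ENNReal.ofReal (Real.exp ⟪ξ, x⟫) ∂μ
      ≤ ENNReal.ofReal (Real.exp (⟪ξ, m⟫ + ‖ξ‖ ^ 2 / (4 * a ^ 2))) := by
    intro R
    set B := Metric.closedBall (0 : E n) R with hB
    have hBm : MeasurableSet B := Metric.isClosed_closedBall.measurableSet
    have hexpm : Measurable (fun x : E n => Real.exp ⟪ξ, x⟫) := by fun_prop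
    have hbdd : ∀ x ∈ B, Real.exp ⟪ξ, x⟫ ≤ Real.exp (‖ξ‖ * R) := by
      intro x hx
      apply Real.exp_le_exp.2
      refine (real_inner_le_norm _ _).trans (mul_le_mul_of_nonneg_left ?_ (norm_nonneg _))
      simpa [hB] using hx
    have hint : Integrable (B.indicator (fun x => Real.exp ⟪ξ, x⟫)) μ := by
      refine Integrable.mono' (integrable_const (Real.exp (‖ξ‖ * R)))
        (hexpm.indicator hBm).aestronglyMeasurable (ae_of_all _ fun x => ?_)
      by_cases hx : x ∈ B
      · rw [Set.indicator_of_mem hx, Real.norm_of_nonneg (Real.exp_pos _).le]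
        exact hbdd x hx
      · rw [Set.indicator_of_notMem hx, norm_zero]
        exact (Real.exp_pos _).le
    set Z := ∫ x, B.indicator (fun x => Real.exp ⟪ξ, x⟫) x ∂μ with hZ
    have hZl : ∫⁻ x in B, ENNReal.ofReal (Real.exp ⟪ξ, x⟫) ∂μ = ENNReal.ofReal Z := by
      rw [hZ, ofReal_integral_eq_lintegral_ofReal hint
        (ae_of_all _ fun x => Set.indicator_nonneg (fun _ _ => (Real.exp_pos _).le) x),
        ← lintegral_indicator hBm]
      refine lintegral_congr fun x => ?_
      by_cases hx : x ∈ B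
      · rw [Set.indicator_of_mem hx, Set.indicator_of_mem hx]
      · rw [Set.indicator_of_notMem hx, Set.indicator_of_notMem hx, ENNReal.ofReal_zero]
    rw [hZl]
    apply ENNReal.ofReal_le_ofReal
    by_cases hZ0 : Z ≤ 0
    · exact hZ0.trans (Real.exp_pos _).le
    push Not at hZ0
    set h : E n → ℝ := fun x => B.indicator (fun x => Real.exp ⟪ξ, x⟫) x / Z with hh
    have hlogh : ∀ x, klFun (h x) = h x * ⟪ξ, x⟫ - h x * Real.log Z + (1 - h x) := by
      intro x
      rw [klFun_apply]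
      by_cases hx : x ∈ B
      · have : Real.log (h x) = ⟪ξ, x⟫ - Real.log Z := by
          simp only [hh]
          rw [Set.indicator_of_mem hx, Real.log_div (Real.exp_pos _).ne' hZ0.ne', Real.log_exp]
        rw [this]; ring
      · have : h x = 0 := by
          simp only [hh]
          rw [Set.indicator_of_notMem hx, zero_div]
        rw [this]; ring
    have hhm : Measurable h := (hexpm.indicator hBm).div_const Z
    have hh0 : ∀ x, 0 ≤ h x := fun x =>
      div_nonneg (Set.indicator_nonneg (fun _ _ => (Real.exp_pos _).le) x) hZ0.le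
    have hhK : ∀ x, h x ≤ Real.exp (‖ξ‖ * R) / Z := by
      intro x
      simp only [hh]
      apply div_le_div_of_nonneg_right _ hZ0.le
      by_cases hx : x ∈ B
      · rw [Set.indicator_of_mem hx]
        exact hbdd x hx
      · rw [Set.indicator_of_notMem hx]
        exact (Real.exp_pos _).le
    have hhi : Integrable h μ := hint.div_const Z
    have hh1 : ∫ x, h x ∂μ = 1 := by
      simp only [hh]
      rw [integral_div, ← hZ, div_self hZ0.ne']
    have hlin : Integrable (fun x => ⟪ξ, x⟫) μ := hμ.const_inner ξ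
    have hhlin : Integrable (fun x => h x * ⟪ξ, x⟫) μ := by
      refine Integrable.mono' (hlin.norm.const_mul (Real.exp (‖ξ‖ * R) / Z))
        (hhm.aestronglyMeasurable.mul hlin.1) (ae_of_all _ fun x => ?_)
      rw [norm_mul, Real.norm_of_nonneg (hh0 x)]
      exact mul_le_mul_of_nonneg_right (hhK x) (norm_nonneg _)
    have hB' := key_B' ha hμ hT h hhm hh0 _ hhK hh1 (fun x => ⟪ξ, x⟫) (fun _ => ξ)
      measurable_const (fun x z => by rw [inner_sub_right]; simp) hlin
      (integrable_const _)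
    have e1 : ∫ x, ⟪ξ, x⟫ ∂μ = ⟪ξ, m⟫ := integral_inner hμ ξ
    have e2 : ∫ x, h x * ‖ξ‖ ^ 2 ∂μ = ‖ξ‖ ^ 2 := by
      rw [integral_mul_const, hh1, one_mul]
    have e3 : ∫ x, klFun (h x) ∂μ = ∫ x, h x * ⟪ξ, x⟫ ∂μ - Real.log Z := by
      simp_rw [hlogh]
      have i1 : Integrable (fun x => h x * ⟪ξ, x⟫ - h x * Real.log Z) μ :=
        hhlin.sub (hhi.mul_const _)
      have i2 : Integrable (fun x => 1 - h x) μ := (integrable_const _).sub hhi
      rw [integral_add i1 i2,
        integral_sub hhlin (hhi.mul_const _), integral_sub (integrable_const _) hhi,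
        integral_mul_const, hh1]
      simp
    rw [e1, e2, e3, Real.sqrt_sq (norm_nonneg _)] at hB'
    set D := ∫ x, h x * ⟪ξ, x⟫ ∂μ - Real.log Z with hD
    have hD0 : 0 ≤ D := by
      rw [← e3]
      exact integral_nonneg fun x => klFun_nonneg (hh0 x)
    have hsq : Real.sqrt D ^ 2 = D := Real.sq_sqrt hD0
    have h5 : ‖ξ‖ * Real.sqrt D / a ≤ D + ‖ξ‖ ^ 2 / (4 * a ^ 2) := by
      have h6 : 0 ≤ (Real.sqrt D - ‖ξ‖ / (2 * a)) ^ 2 := sq_nonneg _
      have h7 : (Real.sqrt D - ‖ξ‖ / (2 * a)) ^ 2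
        = D - ‖ξ‖ * Real.sqrt D / a + ‖ξ‖ ^ 2 / (4 * a ^ 2) := by
        rw [sub_sq, hsq]
        field_simp
        ring
      linarith
    rw [← Real.log_le_iff_le_exp hZ0]
    linarith
  have hcov : AECover μ atTop (fun k : ℕ => Metric.closedBall (0 : E n) (k : ℝ)) :=
    aecover_closedBall tendsto_natCast_atTop_atTop
  have hlim := hcov.lintegral_tendsto_of_nat
    (f := fun x => ENNReal.ofReal (Real.exp ⟪ξ, x⟫)) (by fun_prop)
  exact le_of_tendsto' hlim (fun k => key k)

end WT
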