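import Pool.Agent.WeakTransport.Laplace

open MeasureTheory ProbabilityTheory InformationTheory Filter Topology
open scoped ENNReal NNReal RealInnerProductSpace

namespace WT

variable {n : ℕ}

/-- the Gaussian normalisation -/
noncomputable def J (n : ℕ) (c : ℝ) : ℝ≥0∞ :=
  ∫⁻ ξ : E n, ENNReal.ofReal (Real.exp (-c * ‖ξ‖ ^ 2))

lemma J_lt_top {c : ℝ} (hc : 0 < c) : J n c < ⊤ := by
  have h1 : Integrable (fun ξ : E n => Real.exp (-c * ‖ξ‖ ^ 2)) := by
    have h2 := GaussianFourier.integrable_cexp_neg_mul_sq_norm_add (V := E n) (b := (c : ℂ))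
      (by simpa using hc) 0 0
    have h3 := h2.re
    refine h3.congr (ae_of_all _ fun ξ => ?_)
    simp only [zero_mul, add_zero]
    rw [show (-(c : ℂ) * (‖ξ‖ : ℂ) ^ 2) = ((-c * ‖ξ‖ ^ 2 : ℝ) : ℂ) by push_cast; ring]
    exact Complex.exp_ofReal_re _
  have h4 := h1.2
  rwa [hasFiniteIntegral_iff_ofReal (ae_of_all _ fun x => (Real.exp_pos _).le)] at h4

lemma J_ne_zero {c : ℝ} : J n c ≠ 0 := by
  unfold J
  rw [Ne, lintegral_eq_zero_iff (by fun_prop)]
  intro h
  have h1 : ∀ᵐ ξ : E n, False := by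
    filter_upwards [h] with ξ hξ
    simp only [Pi.zero_apply, ENNReal.ofReal_eq_zero] at hξ
    exact absurd (Real.exp_pos (-c * ‖ξ‖ ^ 2)) (not_lt.2 hξ)
  rw [ae_iff] at h1
  simp only [not_false_iff, Set.ofPred_true] at h1
  exact (NeZero.ne (volume : Measure (E n))) (Measure.measure_univ_eq_zero.1 h1)

lemma J_shift {c : ℝ} (hc : 0 < c) (w : E n) :
    ∫⁻ ξ : E n, ENNReal.ofReal (Real.exp (-c * ‖ξ‖ ^ 2 + ⟪ξ, w⟫))
      = ENNReal.ofReal (Real.exp (‖w‖ ^ 2 / (4 * c))) * J n c := by
  have h1 : ∀ ξ : E n, Real.exp (-c * ‖ξ‖ ^ 2 + ⟪ξ, w⟫)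
      = Real.exp (‖w‖ ^ 2 / (4 * c)) * Real.exp (-c * ‖ξ - (1 / (2 * c)) • w‖ ^ 2) := by
    intro ξ
    rw [← Real.exp_add]
    congr 1
    rw [norm_sub_sq_real, inner_smul_right, norm_smul, Real.norm_of_nonneg (by positivity)]
    field_simp
    ring
  simp_rw [h1, ENNReal.ofReal_mul (Real.exp_pos _).le]
  rw [lintegral_const_mul _ (by fun_prop)]
  congr 1
  exact lintegral_sub_right_eq_self
    (fun ξ : E n => ENNReal.ofReal (Real.exp (-c * ‖ξ‖ ^ 2))) ((1 / (2 * c)) • w)

/-- exponential square integrability -/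
lemma exists_expMoment (n : ℕ) {a : ℝ} (ha : 0 < a) :
    ∃ M : ℝ, 1 ≤ M ∧ ∀ (μ : Measure (E n)) [IsProbabilityMeasure μ],
      Integrable (fun x => x) μ → TMinus (quad a) μ →
      Integrable (fun x => Real.exp (a ^ 2 / 2 * ‖x - ∫ y, y ∂μ‖ ^ 2)) μ ∧
      ∫ x, Real.exp (a ^ 2 / 2 * ‖x - ∫ y, y ∂μ‖ ^ 2) ∂μ ≤ M := by
  set κ : ℝ := 1 / (4 * a ^ 2) with hκ
  have hκ0 : 0 < κ := by positivity
  refine ⟨max 1 (J n κ / J n (2 * κ)).toReal, le_max_left _ _, ?_⟩
  intro μ _ hμ hT
  set m := ∫ y, y ∂μ with hm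
  have hkey : (∫⁻ x, ENNReal.ofReal (Real.exp (a ^ 2 / 2 * ‖x - m‖ ^ 2)) ∂μ) * J n (2 * κ)
      ≤ J n κ := by
    have e1 : (∫⁻ x, ENNReal.ofReal (Real.exp (a ^ 2 / 2 * ‖x - m‖ ^ 2)) ∂μ) * J n (2 * κ)
        = ∫⁻ x, (∫⁻ ξ : E n,
            ENNReal.ofReal (Real.exp (-(2 * κ) * ‖ξ‖ ^ 2 + ⟪ξ, x - m⟫))) ∂μ := by
      rw [← lintegral_mul_const _ (by fun_prop)]
      refine lintegral_congr fun x => ?_
      rw [J_shift (by positivity)]
      congr 3
      rw [hκ]
      field_simp
    rw [e1, lintegral_lintegral_swap (by fun_prop)]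
    unfold J
    refine lintegral_mono fun ξ => ?_
    have e2 : ∀ x : E n, ENNReal.ofReal (Real.exp (-(2 * κ) * ‖ξ‖ ^ 2 + ⟪ξ, x - m⟫))
        = ENNReal.ofReal (Real.exp (-(2 * κ) * ‖ξ‖ ^ 2 - ⟪ξ, m⟫)) *
          ENNReal.ofReal (Real.exp ⟪ξ, x⟫) := by
      intro x
      rw [← ENNReal.ofReal_mul (Real.exp_pos _).le, ← Real.exp_add, inner_sub_right]
      congr 2
      ring
    simp_rw [e2]
    rw [lintegral_const_mul _ (by fun_prop)]
    refine (mul_le_mul_right (laplace ha hμ hT ξ) _).trans ?_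
    rw [← ENNReal.ofReal_mul (Real.exp_pos _).le, ← Real.exp_add]
    apply ENNReal.ofReal_le_ofReal
    apply Real.exp_le_exp.2
    rw [hκ]
    apply le_of_eq
    field_simp
    ring
  have hle : ∫⁻ x, ENNReal.ofReal (Real.exp (a ^ 2 / 2 * ‖x - m‖ ^ 2)) ∂μ
      ≤ J n κ / J n (2 * κ) := by
    rw [ENNReal.le_div_iff_mul_le (Or.inl J_ne_zero) (Or.inl (J_lt_top (by positivity)).ne)]
    exact hkey
  have htop : J n κ / J n (2 * κ) < ⊤ :=
    ENNReal.div_lt_top (J_lt_top hκ0).ne J_ne_zero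
  have hint : Integrable (fun x => Real.exp (a ^ 2 / 2 * ‖x - m‖ ^ 2)) μ := by
    refine ⟨by fun_prop, ?_⟩
    rw [hasFiniteIntegral_iff_ofReal (ae_of_all _ fun x => (Real.exp_pos _).le)]
    exact hle.trans_lt htop
  refine ⟨hint, ?_⟩
  rw [integral_eq_lintegral_of_nonneg_ae (ae_of_all _ fun x => (Real.exp_pos _).le) hint.1]
  exact (ENNReal.toReal_mono htop.ne hle).trans (le_max_right _ _)

lemma klFun_le_sq {x : ℝ} (hx : 0 ≤ x) : klFun x ≤ (x - 1) ^ 2 := by
  rw [klFun_apply]
  rcases eq_or_lt_of_le hx with h | h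
  · rw [← h]; simp
  · have := Real.log_le_sub_one_of_pos h
    nlinarith

/-- the Poincaré inequality for convex functions -/
lemma poincare {a : ℝ} (ha : 0 < a) {μ : Measure (E n)} [IsProbabilityMeasure μ]
    (hμ : Integrable (fun x => x) μ)
    (hT : TMinus (quad a) μ) (G : E n → ℝ) (s : E n → E n) (hGm : Measurable G)
    (hsm : Measurable s) (hGs : ∀ x z, G x + ⟪s x, z - x⟫ ≤ G z)
    (hG2 : Integrable (fun x => G x ^ 2) μ) (hs2 : Integrable (fun x => ‖s x‖ ^ 2) μ) :
    ∫ x, (G x - ∫ y, G y ∂μ) ^ 2 ∂μ ≤ 2 / a ^ 2 * ∫ x, ‖s x‖ ^ 2 ∂μ := by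
  have hGmem : MemLp G 2 μ := (memLp_two_iff_integrable_sq hGm.aestronglyMeasurable).2 hG2
  have hGi : Integrable G μ := hGmem.integrable (by norm_num)
  set c := ∫ y, G y ∂μ with hc
  set F : E n → ℝ := fun x => G x - c with hF
  have hFm : Measurable F := hGm.sub_const c
  have hFi : Integrable F μ := hGi.sub (integrable_const c)
  have hF0 : ∫ x, F x ∂μ = 0 := by
    simp only [hF]
    rw [integral_sub hGi (integrable_const c)]
    simp [hc]
  have hF2 : Integrable (fun x => F x ^ 2) μ := by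
    have : MemLp F 2 μ := hGmem.sub (memLp_const c)
    exact this.integrable_sq
  set S := ∫ x, ‖s x‖ ^ 2 ∂μ with hS
  have hS0 : 0 ≤ S := integral_nonneg fun x => by positivity
  set T : ℕ → E n → ℝ := fun N x => max (-(N:ℝ)) (min (F x) N) with hTdef
  have hTm : ∀ N, Measurable (T N) := fun N => measurable_const.max (hFm.min measurable_const)
  have hTN : ∀ N x, |T N x| ≤ N := by
    intro N x
    have hN : (0:ℝ) ≤ N := Nat.cast_nonneg N
    rw [abs_le]
    refine ⟨le_max_left _ _, max_le (by linarith) (min_le_right _ _)⟩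
  have hTF : ∀ N x, T N x ^ 2 ≤ T N x * F x := by
    intro N x
    have hN : (0:ℝ) ≤ N := Nat.cast_nonneg N
    simp only [hTdef]
    rcases le_total (F x) N with h1 | h1
    · rw [min_eq_left h1]
      rcases le_total (-(N:ℝ)) (F x) with h2 | h2
      · rw [max_eq_right h2, sq]
      · rw [max_eq_left h2]; nlinarith
    · rw [min_eq_right h1, max_eq_right (by linarith)]; nlinarith
  have hTF2 : ∀ N x, T N x * F x ≤ F x ^ 2 := by
    intro N x
    have hN : (0:ℝ) ≤ N := Nat.cast_nonneg N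
    simp only [hTdef]
    rcases le_total (F x) N with h1 | h1
    · rw [min_eq_left h1]
      rcases le_total (-(N:ℝ)) (F x) with h2 | h2
      · rw [max_eq_right h2, sq]
      · rw [max_eq_left h2]; nlinarith
    · rw [min_eq_right h1, max_eq_right (by linarith)]; nlinarith
  have hTFi : ∀ N, Integrable (fun x => T N x * F x) μ := by
    intro N
    refine Integrable.mono' hF2 ((hTm N).mul hFm).aestronglyMeasurable (ae_of_all _ fun x => ?_)
    rw [Real.norm_of_nonneg ((sq_nonneg _).trans (hTF N x))]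
    exact hTF2 N x
  have hTi : ∀ N, Integrable (T N) μ := by
    intro N
    exact Integrable.mono' (integrable_const (N:ℝ)) (hTm N).aestronglyMeasurable
      (ae_of_all _ fun x => hTN N x)
  have hT2i : ∀ N, Integrable (fun x => T N x ^ 2) μ := by
    intro N
    refine Integrable.mono' (hTFi N) ((hTm N).pow_const 2).aestronglyMeasurable
      (ae_of_all _ fun x => ?_)
    rw [Real.norm_of_nonneg (sq_nonneg _)]
    exact hTF N x
  have key : ∀ N : ℕ, ∫ x, T N x * F x ∂μ ≤ 2 / a ^ 2 * S := by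
    intro N
    set τ := ∫ x, T N x ∂μ with hτ
    have hτN : |τ| ≤ N := by
      have := norm_integral_le_of_norm_le_const (μ := μ) (f := T N) (C := N)
        (ae_of_all _ fun x => hTN N x)
      simpa using this
    set t : ℝ := 1 / (2 * N + 1) with ht
    have hN : (0:ℝ) ≤ N := Nat.cast_nonneg N
    have ht0 : 0 < t := by positivity
    set φ : E n → ℝ := fun x => T N x - τ with hφ
    have hφb : ∀ x, |t * φ x| ≤ 1 := by
      intro x
      rw [abs_mul, abs_of_pos ht0, ht, one_div_mul_eq_div, div_le_one (by positivity)]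
      have := abs_sub (T N x) τ
      have := hTN N x
      simp only [hφ]
      linarith
    set h : E n → ℝ := fun x => 1 + t * φ x with hh
    have hhm : Measurable h := (((hTm N).sub_const τ).const_mul t).const_add 1
    have hh0 : ∀ x, 0 ≤ h x := fun x => by
      have := (abs_le.1 (hφb x)).1
      simp only [hh]; linarith
    have hh2 : ∀ x, h x ≤ 2 := fun x => by
      have := (abs_le.1 (hφb x)).2
      simp only [hh]; linarith
    have hφi : Integrable φ μ := (hTi N).sub (integrable_const τ)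
    have hφ0 : ∫ x, φ x ∂μ = 0 := by
      simp only [hφ]
      rw [integral_sub (hTi N) (integrable_const τ)]
      simp [hτ]
    have hh1 : ∫ x, h x ∂μ = 1 := by
      simp only [hh]
      rw [integral_add (integrable_const _) (hφi.const_mul t), integral_const_mul, hφ0]
      simp
    have hB := key_B' ha hμ hT h hhm hh0 2 hh2 hh1 G s hsm hGs hGi hs2
    have hGT : Integrable (fun x => T N x * G x) μ := by
      have : (fun x => T N x * G x) = fun x => T N x * F x + c * T N x := by
        ext x; simp only [hF]; ring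
      rw [this]
      exact (hTFi N).add ((hTi N).const_mul c)
    have e1 : ∫ x, h x * G x ∂μ - ∫ x, G x ∂μ = t * ∫ x, T N x * F x ∂μ := by
      have hhG : (fun x => h x * G x) = fun x => G x + (t * (T N x * F x)
          + (t * c * T N x - t * τ * G x)) := by
        ext x; simp only [hh, hφ, hF]; ring
      have i1 : Integrable (fun x => t * c * T N x - t * τ * G x) μ :=
        ((hTi N).const_mul _).sub (hGi.const_mul _)
      have i2 : Integrable (fun x => t * (T N x * F x)
          + (t * c * T N x - t * τ * G x)) μ := ((hTFi N).const_mul t).add i1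
      rw [hhG, integral_add hGi i2, integral_add ((hTFi N).const_mul t) i1,
        integral_sub ((hTi N).const_mul _) (hGi.const_mul _), integral_const_mul,
        integral_const_mul, integral_const_mul, ← hc, ← hτ]
      ring
    have hhs : ∫ x, h x * ‖s x‖ ^ 2 ∂μ ≤ 2 * S := by
      rw [hS, ← integral_const_mul]
      refine integral_mono_of_nonneg (ae_of_all _ fun x => mul_nonneg (hh0 x) (sq_nonneg _))
        (hs2.const_mul 2) (ae_of_all _ fun x => ?_)
      exact mul_le_mul_of_nonneg_right (hh2 x) (sq_nonneg _)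
    have hkl : ∫ x, klFun (h x) ∂μ ≤ t ^ 2 * ∫ x, T N x * F x ∂μ := by
      have hφ2i : Integrable (fun x => t ^ 2 * φ x ^ 2) μ := by
        refine Integrable.const_mul ?_ _
        have : (fun x => φ x ^ 2) = fun x => T N x ^ 2 - 2 * τ * T N x + τ ^ 2 := by
          ext x; simp only [hφ]; ring
        rw [this]
        exact ((hT2i N).sub ((hTi N).const_mul _)).add (integrable_const _)
      have h1 : ∫ x, klFun (h x) ∂μ ≤ ∫ x, t ^ 2 * φ x ^ 2 ∂μ := by
        refine integral_mono_of_nonneg (ae_of_all _ fun x => klFun_nonneg (hh0 x))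
          hφ2i (ae_of_all _ fun x => ?_)
        refine (klFun_le_sq (hh0 x)).trans (le_of_eq ?_)
        simp only [hh]; ring
      refine h1.trans ?_
      rw [integral_const_mul]
      refine mul_le_mul_of_nonneg_left ?_ (sq_nonneg t)
      have h2 : ∫ x, φ x ^ 2 ∂μ = ∫ x, T N x ^ 2 ∂μ - τ ^ 2 := by
        have : (fun x => φ x ^ 2) = fun x => T N x ^ 2 - 2 * τ * T N x + τ ^ 2 := by
          ext x; simp only [hφ]; ring
        have i1 : Integrable (fun x => T N x ^ 2 - 2 * τ * T N x) μ :=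
          (hT2i N).sub ((hTi N).const_mul _)
        rw [this, integral_add i1 (integrable_const _),
          integral_sub (hT2i N) ((hTi N).const_mul _), integral_const_mul, ← hτ]
        simp
        ring
      rw [h2]
      have h3 : ∫ x, T N x ^ 2 ∂μ ≤ ∫ x, T N x * F x ∂μ :=
        integral_mono (hT2i N) (hTFi N) (fun x => hTF N x)
      nlinarith [sq_nonneg τ]
    set A := ∫ x, T N x * F x ∂μ with hA
    have hA0 : 0 ≤ A := integral_nonneg fun x => (sq_nonneg _).trans (hTF N x)
    rw [e1] at hB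
    have h4 : Real.sqrt (∫ x, klFun (h x) ∂μ) ≤ t * Real.sqrt A := by
      refine (Real.sqrt_le_sqrt hkl).trans (le_of_eq ?_)
      rw [Real.sqrt_mul (sq_nonneg t), Real.sqrt_sq ht0.le]
    have h5 : t * A ≤ Real.sqrt (2 * S) * (t * Real.sqrt A) / a := by
      refine hB.trans ?_
      apply div_le_div_of_nonneg_right _ ha.le
      exact mul_le_mul (Real.sqrt_le_sqrt hhs) h4 (Real.sqrt_nonneg _) (Real.sqrt_nonneg _)
    have h6 : A ≤ Real.sqrt (2 * S) * Real.sqrt A / a := by
      have : t * A ≤ t * (Real.sqrt (2 * S) * Real.sqrt A / a) := by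
        refine h5.trans (le_of_eq ?_); ring
      exact le_of_mul_le_mul_left this ht0
    have h7 : Real.sqrt (2 * S) ^ 2 = 2 * S := Real.sq_sqrt (by positivity)
    have h8 : Real.sqrt A ^ 2 = A := Real.sq_sqrt hA0
    rcases eq_or_lt_of_le (Real.sqrt_nonneg A) with h9 | h9
    · have : A = 0 := by rw [← h8, ← h9]; ring
      rw [this]; positivity
    · have h10 : Real.sqrt A ≤ Real.sqrt (2 * S) / a := by
        rw [le_div_iff₀ ha]
        rw [le_div_iff₀ ha] at h6
        nlinarith
      calc A = Real.sqrt A ^ 2 := h8.symm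
        _ ≤ (Real.sqrt (2 * S) / a) ^ 2 := by
            apply pow_le_pow_left₀ (Real.sqrt_nonneg _) h10
        _ = 2 / a ^ 2 * S := by rw [div_pow, h7]; ring
  have hlim : Tendsto (fun N : ℕ => ∫ x, T N x * F x ∂μ) atTop (𝓝 (∫ x, F x ^ 2 ∂μ)) := by
    refine tendsto_integral_of_dominated_convergence (fun x => F x ^ 2)
      (fun N => (hTFi N).1) hF2 (fun N => ae_of_all _ fun x => ?_) (ae_of_all _ fun x => ?_)
    · rw [Real.norm_of_nonneg ((sq_nonneg _).trans (hTF N x))]
      exact hTF2 N x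
    · refine tendsto_const_nhds.congr' ?_
      obtain ⟨k, hk⟩ := exists_nat_ge |F x|
      filter_upwards [eventually_ge_atTop k] with N hN
      have hN' : |F x| ≤ N := hk.trans (by exact_mod_cast hN)
      rw [abs_le] at hN'
      simp only [hTdef]
      rw [min_eq_left hN'.2, max_eq_right hN'.1, sq]
  exact le_of_tendsto' hlim key

end WT
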