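import Pool.Agent.WeakTransport.Poincare

open MeasureTheory ProbabilityTheory InformationTheory Filter Topology
open scoped ENNReal NNReal RealInnerProductSpace

set_option linter.unusedSectionVars false

namespace WT

variable {n : ℕ}

/-- everything we need from `T⁻` -/
structure Good (μ : Measure (E n)) (m : E n) (ε κ P M : ℝ) : Prop where
  int : Integrable (fun x => x) μ
  mean : ∫ x, x ∂μ = m
  expi : Integrable (fun x => Real.exp (ε * ‖x - m‖ ^ 2)) μ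
  expm : ∫ x, Real.exp (ε * ‖x - m‖ ^ 2) ∂μ ≤ M
  lap : ∀ ξ : E n, ∫ x, Real.exp ⟪ξ, x - m⟫ ∂μ ≤ Real.exp (κ * ‖ξ‖ ^ 2)
  poin : ∀ (G : E n → ℝ) (s : E n → E n), Measurable G → Measurable s →
    (∀ x z, G x + ⟪s x, z - x⟫ ≤ G z) → Integrable (fun x => G x ^ 2) μ →
    Integrable (fun x => ‖s x‖ ^ 2) μ →
    ∫ x, (G x - ∫ y, G y ∂μ) ^ 2 ∂μ ≤ P * ∫ x, ‖s x‖ ^ 2 ∂μ

lemma exists_good (n : ℕ) {a : ℝ} (ha : 0 < a) :
    ∃ M : ℝ, 1 ≤ M ∧ ∀ (μ : Measure (E n)) [IsProbabilityMeasure μ],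
      Integrable (fun x => x) μ → TMinus (quad a) μ →
      Good μ (∫ x, x ∂μ) (a ^ 2 / 2) (1 / (4 * a ^ 2)) (2 / a ^ 2) M := by
  obtain ⟨M, hM1, hM⟩ := exists_expMoment n ha
  refine ⟨M, hM1, fun μ _ hμ hT => ?_⟩
  obtain ⟨h1, h2⟩ := hM μ hμ hT
  refine ⟨hμ, rfl, h1, h2, fun ξ => ?_, fun G s hG hs hGs hG2 hs2 =>
    poincare ha hμ hT G s hG hs hGs hG2 hs2⟩
  set m := ∫ x, x ∂μ with hm
  have h3 := laplace ha hμ hT ξ
  rw [integral_eq_lintegral_of_nonneg_ae (ae_of_all _ fun x => (Real.exp_pos _).le)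
    (by fun_prop)]
  refine ENNReal.toReal_le_of_le_ofReal (Real.exp_pos _).le ?_
  have e2 : ∀ x : E n, ENNReal.ofReal (Real.exp ⟪ξ, x - m⟫)
      = ENNReal.ofReal (Real.exp (- ⟪ξ, m⟫)) * ENNReal.ofReal (Real.exp ⟪ξ, x⟫) := by
    intro x
    rw [← ENNReal.ofReal_mul (Real.exp_pos _).le, ← Real.exp_add, inner_sub_right]
    congr 2
    ring
  simp_rw [e2]
  rw [lintegral_const_mul _ (by fun_prop)]
  refine (mul_le_mul_right h3 _).trans ?_
  rw [← ENNReal.ofReal_mul (Real.exp_pos _).le, ← Real.exp_add]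
  apply ENNReal.ofReal_le_ofReal
  apply Real.exp_le_exp.2
  apply le_of_eq
  ring

section Star

variable {μ : Measure (E n)} [IsProbabilityMeasure μ] {m : E n} {ε κ P M C : ℝ}

lemma Good.integrable_of_le (hμ : Good μ m ε κ P M) {f : E n → ℝ} (hf : Measurable f) (K : ℝ)
    (h : ∀ x, |f x| ≤ K * Real.exp (ε * ‖x - m‖ ^ 2)) : Integrable f μ :=
  Integrable.mono' (hμ.expi.const_mul K) hf.aestronglyMeasurable (ae_of_all _ h)

lemma sq_le_exp {ε u : ℝ} (hε : 0 < ε) : u ^ 2 ≤ 1 / ε * Real.exp (ε * u ^ 2) := by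
  rw [one_div_mul_eq_div, le_div_iff₀ hε]
  have := Real.add_one_le_exp (ε * u ^ 2)
  linarith

lemma half_sq_le_exp {z : ℝ} (hz : 0 ≤ z) : z ^ 2 ≤ 2 * Real.exp z := by
  have := Real.quadratic_le_exp_of_nonneg hz
  nlinarith

lemma four_le_exp {ε u : ℝ} (hε : 0 < ε) : u ^ 4 ≤ 2 / ε ^ 2 * Real.exp (ε * u ^ 2) := by
  rw [div_mul_eq_mul_div, le_div_iff₀ (by positivity)]
  have := half_sq_le_exp (z := ε * u ^ 2) (by positivity)
  nlinarith

lemma exp_lin_le {ε u c : ℝ} (hε : 0 < ε) :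
    Real.exp (c * u) ≤ Real.exp (c ^ 2 / (4 * ε)) * Real.exp (ε * u ^ 2) := by
  rw [← Real.exp_add]
  apply Real.exp_le_exp.2
  have : 0 ≤ (2 * ε * u - c) ^ 2 / (4 * ε) := by positivity
  have h2 : (2 * ε * u - c) ^ 2 / (4 * ε) = c ^ 2 / (4 * ε) + ε * u ^ 2 - c * u := by
    field_simp
    ring
  linarith

lemma sq_exp_le {ε u : ℝ} (hε : 0 < ε) :
    u ^ 2 * Real.exp u ≤ 2 / ε * Real.exp (1 / (2 * ε)) * Real.exp (ε * u ^ 2) := by
  have h1 := sq_le_exp (u := u) (half_pos hε)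
  have h2 := exp_lin_le (u := u) (c := 1) (half_pos hε)
  rw [one_mul] at h2
  have h3 : Real.exp (ε * u ^ 2) = Real.exp (ε / 2 * u ^ 2) * Real.exp (ε / 2 * u ^ 2) := by
    rw [← Real.exp_add]; congr 1; ring
  rw [h3]
  calc u ^ 2 * Real.exp u ≤ (1 / (ε / 2) * Real.exp (ε / 2 * u ^ 2)) *
        (Real.exp (1 ^ 2 / (4 * (ε / 2))) * Real.exp (ε / 2 * u ^ 2)) := by
        apply mul_le_mul h1 h2 (Real.exp_pos _).le
        positivity
    _ = 2 / ε * Real.exp (1 / (2 * ε)) *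
        (Real.exp (ε / 2 * u ^ 2) * Real.exp (ε / 2 * u ^ 2)) := by
        rw [show (1:ℝ) ^ 2 / (4 * (ε / 2)) = 1 / (2 * ε) by field_simp; norm_num]
        field_simp

lemma Good.int_sq (hμ : Good μ m ε κ P M) (hε : 0 < ε) :
    Integrable (fun x => ‖x - m‖ ^ 2) μ ∧ ∫ x, ‖x - m‖ ^ 2 ∂μ ≤ M / ε := by
  have h1 : Integrable (fun x => ‖x - m‖ ^ 2) μ :=
    hμ.integrable_of_le (by fun_prop) (1 / ε) (fun x => by
      rw [abs_of_nonneg (sq_nonneg _)]; exact sq_le_exp hε)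
  refine ⟨h1, ?_⟩
  calc ∫ x, ‖x - m‖ ^ 2 ∂μ ≤ ∫ x, 1 / ε * Real.exp (ε * ‖x - m‖ ^ 2) ∂μ :=
        integral_mono h1 (hμ.expi.const_mul _) (fun x => sq_le_exp hε)
    _ = 1 / ε * ∫ x, Real.exp (ε * ‖x - m‖ ^ 2) ∂μ := integral_const_mul _ _
    _ ≤ 1 / ε * M := mul_le_mul_of_nonneg_left hμ.expm (by positivity)
    _ = M / ε := by ring

lemma Good.int_sq_exp (hμ : Good μ m ε κ P M) (hε : 0 < ε) :
    Integrable (fun x => ‖x - m‖ ^ 2 * Real.exp ‖x - m‖) μ ∧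
    ∫ x, ‖x - m‖ ^ 2 * Real.exp ‖x - m‖ ∂μ ≤ 2 / ε * Real.exp (1 / (2 * ε)) * M := by
  have h1 : Integrable (fun x => ‖x - m‖ ^ 2 * Real.exp ‖x - m‖) μ :=
    hμ.integrable_of_le (by fun_prop) (2 / ε * Real.exp (1 / (2 * ε))) (fun x => by
      rw [abs_of_nonneg (by positivity)]; exact sq_exp_le hε)
  refine ⟨h1, ?_⟩
  calc ∫ x, ‖x - m‖ ^ 2 * Real.exp ‖x - m‖ ∂μ
      ≤ ∫ x, 2 / ε * Real.exp (1 / (2 * ε)) * Real.exp (ε * ‖x - m‖ ^ 2) ∂μ :=
        integral_mono h1 (hμ.expi.const_mul _) (fun x => sq_exp_le hε)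
    _ = 2 / ε * Real.exp (1 / (2 * ε)) * ∫ x, Real.exp (ε * ‖x - m‖ ^ 2) ∂μ :=
        integral_const_mul _ _
    _ ≤ _ := mul_le_mul_of_nonneg_left hμ.expm (by positivity)

lemma Good.int_four (hμ : Good μ m ε κ P M) (hε : 0 < ε) :
    Integrable (fun x => ‖x - m‖ ^ 4) μ :=
  hμ.integrable_of_le (by fun_prop) (2 / ε ^ 2) (fun x => by
    rw [abs_of_nonneg (by positivity)]; exact four_le_exp hε)

lemma Good.int_exp (hμ : Good μ m ε κ P M) (hε : 0 < ε) (c : ℝ) :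
    Integrable (fun x => Real.exp (c * ‖x - m‖)) μ :=
  hμ.integrable_of_le (by fun_prop) (Real.exp (c ^ 2 / (4 * ε))) (fun x => by
    rw [abs_of_nonneg (by positivity)]; exact exp_lin_le hε)

/-- continuity of `s` and `g` -/
lemma cont_s {g : E n → ℝ} {s : E n → E n} (hC : 0 < C)
    (hG1 : ∀ x z, g x + ⟪s x, z - x⟫ + C / 4 * ‖s z - s x‖ ^ 2 ≤ g z)
    (hG2 : ∀ x z, g z ≤ g x + ⟪s x, z - x⟫ + ‖z - x‖ ^ 2 / C) :
    Continuous s ∧ Continuous g := by
  constructor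
  · have hL : LipschitzWith (Real.toNNReal (2 / C)) s := by
      apply LipschitzWith.of_dist_le_mul
      intro z x
      rw [dist_eq_norm, dist_eq_norm, Real.coe_toNNReal _ (by positivity)]
      have h1 := hG1 x z
      have h2 := hG2 x z
      have h3 : C / 4 * ‖s z - s x‖ ^ 2 ≤ ‖z - x‖ ^ 2 / C := by linarith
      have h4 : ‖s z - s x‖ ^ 2 ≤ (2 / C * ‖z - x‖) ^ 2 := by
        have : ‖s z - s x‖ ^ 2 = 4 / C * (C / 4 * ‖s z - s x‖ ^ 2) := by field_simp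
        rw [this]
        calc 4 / C * (C / 4 * ‖s z - s x‖ ^ 2) ≤ 4 / C * (‖z - x‖ ^ 2 / C) :=
              mul_le_mul_of_nonneg_left h3 (by positivity)
          _ = (2 / C * ‖z - x‖) ^ 2 := by ring
      exact (pow_le_pow_iff_left₀ (norm_nonneg _) (by positivity) (by norm_num)).1 h4
    exact hL.continuous
  · rw [continuous_iff_continuousAt]
    intro x
    have h1 : Tendsto (fun z => g x + ⟪s x, z - x⟫) (𝓝 x) (𝓝 (g x)) := by
      have : Continuous (fun z => g x + ⟪s x, z - x⟫) := by fun_prop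
      simpa using this.tendsto x
    have h2 : Tendsto (fun z => g x + ⟪s x, z - x⟫ + ‖z - x‖ ^ 2 / C) (𝓝 x) (𝓝 (g x)) := by
      have : Continuous (fun z => g x + ⟪s x, z - x⟫ + ‖z - x‖ ^ 2 / C) := by fun_prop
      simpa using this.tendsto x
    refine tendsto_of_tendsto_of_tendsto_of_le_of_le h1 h2 (fun z => ?_) (fun z => hG2 x z)
    have := hG1 x z
    have h3 : 0 ≤ C / 4 * ‖s z - s x‖ ^ 2 := by positivity
    show g x + ⟪s x, z - x⟫ ≤ g z
    linarith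

/-- pointwise inequality of regime II -/
lemma pointwise_ineq {g v w ρ : ℝ} (hv : 0 ≤ v) (hw : w = min v 1)
    (hρ0 : 0 ≤ ρ) (hρ : g < -(1/4) → Real.exp (-g) ≤ ρ) :
    Real.exp (-g - v) ≤ 1 - g + 10 * g ^ 2 - w / 4 + ρ := by
  have hw1 : w ≤ 1 := by rw [hw]; exact min_le_right _ _
  have hwv : w ≤ v := by rw [hw]; exact min_le_left _ _
  have hw0 : 0 ≤ w := by rw [hw]; exact le_min hv zero_le_one
  rcases lt_or_ge g (-(1/4)) with h | h
  · have h1 := hρ h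
    have h2 : Real.exp (-g - v) ≤ Real.exp (-g) := Real.exp_le_exp.2 (by linarith)
    nlinarith
  · rcases lt_or_ge (1/2) g with h' | h'
    · have h2 : Real.exp (-g - v) ≤ Real.exp (-g) := Real.exp_le_exp.2 (by linarith)
      have h3 : Real.exp (-g) ≤ 1 := Real.exp_le_one_iff.2 (by linarith)
      nlinarith
    · -- -1/4 ≤ g ≤ 1/2
      have h1 : Real.exp (-g) ≤ 1 - g + g ^ 2 := by
        have h3 : |(-g)| ≤ 1 := by rw [abs_le]; constructor <;> linarith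
        have h4 := Real.abs_exp_sub_one_sub_id_le h3
        have h5 := le_of_abs_le h4
        nlinarith
      have h2 : Real.exp (-v) ≤ 1 - w / 2 := by
        have h3 : Real.exp (-v) ≤ Real.exp (-w) := Real.exp_le_exp.2 (by linarith)
        have h4 : Real.exp (-w) ≤ 1 / (1 + w) := by
          rw [Real.exp_neg, inv_eq_one_div]
          apply one_div_le_one_div_of_le (by linarith)
          have := Real.add_one_le_exp w
          linarith
        have h5 : 1 / (1 + w) ≤ 1 - w / 2 := by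
          rw [div_le_iff₀ (by linarith)]
          nlinarith
        linarith
      have h6 : Real.exp (-g - v) = Real.exp (-g) * Real.exp (-v) := by
        rw [← Real.exp_add]; congr 1
      have h7 : (1:ℝ)/2 ≤ Real.exp (-g) := by
        have := Real.add_one_le_exp (-g)
        linarith
      rw [h6]
      have h8 : Real.exp (-g) * Real.exp (-v) ≤ Real.exp (-g) * (1 - w / 2) :=
        mul_le_mul_of_nonneg_left h2 (Real.exp_pos _).le
      have h9 : Real.exp (-g) * (w / 2) ≥ 1 / 2 * (w / 2) :=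
        mul_le_mul_of_nonneg_right h7 (by linarith)
      nlinarith

end Star

end WT
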