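import Pool.Agent.WeakTransport.Star1

open MeasureTheory ProbabilityTheory InformationTheory Filter Topology
open scoped ENNReal NNReal RealInnerProductSpace

set_option linter.unusedSectionVars false

namespace WT

variable {n : ℕ}

section Star

variable {μ : Measure (E n)} [IsProbabilityMeasure μ] {m : E n} {ε κ P M C : ℝ}

/-- facts about the remainder `r` at a base point `x₀` -/
lemma remainder_facts (hμ : Good μ m ε κ P M) (hε : 0 < ε) (hC : 0 < C)
    {g : E n → ℝ} {s : E n → E n}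
    (hG1 : ∀ x z, g x + ⟪s x, z - x⟫ + C / 4 * ‖s z - s x‖ ^ 2 ≤ g z)
    (hG2 : ∀ x z, g z ≤ g x + ⟪s x, z - x⟫ + ‖z - x‖ ^ 2 / C)
    (x₀ : E n) (hx₀ : ‖x₀ - m‖ ^ 2 ≤ 4 * (M / ε)) :
    ∃ r : E n → ℝ, Measurable r ∧ (∀ x, C / 4 * ‖s x - s x₀‖ ^ 2 ≤ r x) ∧
      (∀ x, r x ≤ (2 * ‖x - m‖ ^ 2 + 8 * (M / ε)) / C) ∧
      Integrable r μ ∧ Integrable (fun x => r x ^ 2) μ ∧ ∫ x, r x ∂μ ≤ 10 * (M / ε) / C ∧
      (∀ x z, r x + ⟪s x - s x₀, z - x⟫ ≤ r z) ∧
      Integrable g μ ∧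
      (∀ x, g x - ∫ y, g y ∂μ = ⟪s x₀, x - m⟫ + r x - ∫ y, r y ∂μ) := by
  obtain ⟨hsc, hgc⟩ := cont_s hC hG1 hG2
  set S := M / ε with hS
  set ξ := s x₀ with hξ
  obtain ⟨hu2, hu2'⟩ := hμ.int_sq hε
  have hu4 := hμ.int_four hε
  set r : E n → ℝ := fun x => g x - g x₀ - ⟪ξ, x - x₀⟫ with hr
  have hrm : Measurable r := by
    have : Continuous r := by
      simp only [hr]; fun_prop
    exact this.measurable
  have hr1 : ∀ x, C / 4 * ‖s x - ξ‖ ^ 2 ≤ r x := by
    intro x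
    have := hG1 x₀ x
    simp only [hr]; linarith
  have hr0 : ∀ x, 0 ≤ r x := fun x => le_trans (by positivity) (hr1 x)
  have hr2 : ∀ x, r x ≤ (2 * ‖x - m‖ ^ 2 + 8 * S) / C := by
    intro x
    have h1 := hG2 x₀ x
    have h2 : ‖x - x₀‖ ^ 2 ≤ 2 * ‖x - m‖ ^ 2 + 8 * S := by
      have h3 : ‖x - x₀‖ ≤ ‖x - m‖ + ‖x₀ - m‖ := by
        have : x - x₀ = (x - m) - (x₀ - m) := by abel
        rw [this]; exact norm_sub_le _ _
      have h4 : ‖x - x₀‖ ^ 2 ≤ (‖x - m‖ + ‖x₀ - m‖) ^ 2 :=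
        pow_le_pow_left₀ (norm_nonneg _) h3 2
      nlinarith [sq_nonneg (‖x - m‖ - ‖x₀ - m‖)]
    have h5 : ‖x - x₀‖ ^ 2 / C ≤ (2 * ‖x - m‖ ^ 2 + 8 * S) / C :=
      div_le_div_of_nonneg_right h2 hC.le
    simp only [hr]; linarith
  have hbi : Integrable (fun x => (2 * ‖x - m‖ ^ 2 + 8 * S) / C) μ :=
    ((hu2.const_mul 2).add (integrable_const _)).div_const C
  have hri : Integrable r μ := by
    refine Integrable.mono' hbi hrm.aestronglyMeasurable (ae_of_all _ fun x => ?_)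
    rw [Real.norm_of_nonneg (hr0 x)]
    exact hr2 x
  have hb2i : Integrable (fun x => ((2 * ‖x - m‖ ^ 2 + 8 * S) / C) ^ 2) μ := by
    have : (fun x => ((2 * ‖x - m‖ ^ 2 + 8 * S) / C) ^ 2)
        = fun x => 4 / C ^ 2 * ‖x - m‖ ^ 4 + 32 * S / C ^ 2 * ‖x - m‖ ^ 2
          + 64 * S ^ 2 / C ^ 2 := by
      ext x; ring
    rw [this]
    exact ((hu4.const_mul _).add (hu2.const_mul _)).add (integrable_const _)
  have hr2i : Integrable (fun x => r x ^ 2) μ := by
    refine Integrable.mono' hb2i (hrm.pow_const 2).aestronglyMeasurable (ae_of_all _ fun x => ?_)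
    rw [Real.norm_of_nonneg (sq_nonneg _)]
    exact pow_le_pow_left₀ (hr0 x) (hr2 x) 2
  have hrE : ∫ x, r x ∂μ ≤ 10 * S / C := by
    calc ∫ x, r x ∂μ ≤ ∫ x, (2 * ‖x - m‖ ^ 2 + 8 * S) / C ∂μ :=
          integral_mono hri hbi hr2
      _ = (2 * ∫ x, ‖x - m‖ ^ 2 ∂μ + 8 * S) / C := by
          rw [integral_div, integral_add (hu2.const_mul 2) (integrable_const _),
            integral_const_mul]
          simp
      _ ≤ 10 * S / C := by
          apply div_le_div_of_nonneg_right _ hC.le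
          linarith
  have hrs : ∀ x z, r x + ⟪s x - ξ, z - x⟫ ≤ r z := by
    intro x z
    have h1 := hG1 x z
    have h2 : 0 ≤ C / 4 * ‖s z - s x‖ ^ 2 := by positivity
    simp only [hr]
    rw [inner_sub_left]
    have h3 : ⟪ξ, z - x₀⟫ = ⟪ξ, z - x⟫ + ⟪ξ, x - x₀⟫ := by
      rw [← inner_add_right]; congr 1; abel
    linarith
  have hlin : Integrable (fun x => ⟪ξ, x - x₀⟫) μ := by
    have : Integrable (fun x => x - x₀) μ := hμ.int.sub (integrable_const x₀)
    exact this.const_inner ξ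
  have hgeq : g = fun x => (r x + g x₀) + ⟪ξ, x - x₀⟫ := by
    ext x; simp only [hr]; ring
  have hrc : Integrable (fun x => r x + g x₀) μ := hri.add (integrable_const _)
  have hgi : Integrable g μ := by
    rw [hgeq]
    exact hrc.add hlin
  refine ⟨r, hrm, hr1, hr2, hri, hr2i, hrE, hrs, hgi, fun x => ?_⟩
  have h1 : ∫ y, g y ∂μ = ∫ y, r y ∂μ + g x₀ + ⟪ξ, m - x₀⟫ := by
    have h2 : ∫ y, g y ∂μ = ∫ y, ((r y + g x₀) + ⟪ξ, y - x₀⟫) ∂μ := by
      conv_lhs => rw [hgeq]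
    rw [h2, integral_add hrc hlin, integral_add hri (integrable_const _)]
    have h3 : Integrable (fun x => x - x₀) μ := hμ.int.sub (integrable_const x₀)
    rw [integral_inner h3, integral_sub hμ.int (integrable_const x₀), hμ.mean]
    simp
  rw [h1]
  have h4 : ⟪ξ, x - m⟫ = ⟪ξ, x - x₀⟫ - ⟪ξ, m - x₀⟫ := by
    rw [← inner_sub_right]; congr 1; abel
  rw [h4]
  simp only [hr]
  ring

/-- regime I -/
lemma regimeI (hμ : Good μ m ε κ P M) (hε : 0 < ε) (hC : 0 < C) (hCκ : 32 * κ ≤ C)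
    {g : E n → ℝ} {s : E n → E n}
    (x₀ : E n) (r : E n → ℝ) (hr1 : ∀ x, C / 4 * ‖s x - s x₀‖ ^ 2 ≤ r x)
    (hrE : ∫ x, r x ∂μ ≤ 10 * (M / ε) / C)
    (hgr : ∀ x, g x - ∫ y, g y ∂μ = ⟪s x₀, x - m⟫ + r x - ∫ y, r y ∂μ)
    (hv0 : 40 * (M / ε) / C ≤ C / 8 * ‖s x₀‖ ^ 2) :
    ∫ x, Real.exp (-(g x - ∫ y, g y ∂μ) - C / 8 * ‖s x‖ ^ 2) ∂μ ≤ 1 := by
  set ξ := s x₀ with hξ
  set R := ∫ y, r y ∂μ with hR
  set v₀ := C / 8 * ‖ξ‖ ^ 2 with hv₀
  have hle : ∀ x, Real.exp (-(g x - ∫ y, g y ∂μ) - C / 8 * ‖s x‖ ^ 2)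
      ≤ Real.exp (R - v₀ / 2) * Real.exp ⟪-ξ, x - m⟫ := by
    intro x
    rw [← Real.exp_add]
    apply Real.exp_le_exp.2
    rw [hgr, inner_neg_left]
    have h1 : ‖ξ‖ ^ 2 ≤ 2 * ‖s x‖ ^ 2 + 2 * ‖s x - ξ‖ ^ 2 := by
      have h3 : ‖ξ‖ ≤ ‖s x‖ + ‖s x - ξ‖ := by
        have : ξ = s x - (s x - ξ) := by abel
        conv_lhs => rw [this]
        exact norm_sub_le _ _
      have h4 : ‖ξ‖ ^ 2 ≤ (‖s x‖ + ‖s x - ξ‖) ^ 2 :=
        pow_le_pow_left₀ (norm_nonneg _) h3 2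
      nlinarith [sq_nonneg (‖s x‖ - ‖s x - ξ‖)]
    have h2 := hr1 x
    have h5 : C / 8 * ‖ξ‖ ^ 2 ≤ C / 8 * (2 * ‖s x‖ ^ 2 + 2 * ‖s x - ξ‖ ^ 2) :=
      mul_le_mul_of_nonneg_left h1 (by positivity)
    have h6 : 0 ≤ C / 4 * ‖s x - ξ‖ ^ 2 := by positivity
    simp only [hv₀]
    nlinarith
  have hi : Integrable (fun x => Real.exp ⟪-ξ, x - m⟫) μ := by
    refine Integrable.mono' (hμ.int_exp hε ‖ξ‖) (by fun_prop) (ae_of_all _ fun x => ?_)
    rw [Real.norm_of_nonneg (Real.exp_pos _).le]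
    apply Real.exp_le_exp.2
    have := real_inner_le_norm (-ξ) (x - m)
    rwa [norm_neg] at this
  calc ∫ x, Real.exp (-(g x - ∫ y, g y ∂μ) - C / 8 * ‖s x‖ ^ 2) ∂μ
      ≤ ∫ x, Real.exp (R - v₀ / 2) * Real.exp ⟪-ξ, x - m⟫ ∂μ :=
        integral_mono_of_nonneg (ae_of_all _ fun x => (Real.exp_pos _).le) (hi.const_mul _)
          (ae_of_all _ hle)
    _ = Real.exp (R - v₀ / 2) * ∫ x, Real.exp ⟪-ξ, x - m⟫ ∂μ := integral_const_mul _ _
    _ ≤ Real.exp (R - v₀ / 2) * Real.exp (κ * ‖-ξ‖ ^ 2) :=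
        mul_le_mul_of_nonneg_left (hμ.lap (-ξ)) (Real.exp_pos _).le
    _ ≤ 1 := by
        rw [← Real.exp_add, norm_neg]
        apply Real.exp_le_one_iff.2
        have h1 : κ * ‖ξ‖ ^ 2 ≤ v₀ / 4 := by
          simp only [hv₀]
          nlinarith [sq_nonneg ‖ξ‖]
        have h2 : 10 * (M / ε) / C = (40 * (M / ε) / C) / 4 := by ring
        linarith

/-- the variance bound of regime II -/
lemma var_bound (hμ : Good μ m ε κ P M) (hP : 0 ≤ P) (hC : 0 < C)
    (hCS : 80 * (M / ε) ≤ C) (hCP : 512 * P ≤ C)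
    {s : E n → E n} (hsc : Continuous s) (x₀ : E n) (r : E n → ℝ) (hrm : Measurable r)
    (hr1 : ∀ x, C / 4 * ‖s x - s x₀‖ ^ 2 ≤ r x)
    (hri : Integrable r μ) (hr2i : Integrable (fun x => r x ^ 2) μ)
    (hrE : ∫ x, r x ∂μ ≤ 10 * (M / ε) / C)
    (hrs : ∀ x z, r x + ⟪s x - s x₀, z - x⟫ ≤ r z)
    (Vm : ℝ) (hVm : Vm = ∫ x, min (C / 8 * ‖s x‖ ^ 2) 1 ∂μ)
    (hv0 : C / 8 * ‖s x₀‖ ^ 2 ≤ 2 * Vm) :
    ∫ x, (r x - ∫ y, r y ∂μ) ^ 2 ∂μ ≤ 96 * P / C * Vm := by
  set ξ := s x₀ with hξ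
  set R := ∫ y, r y ∂μ with hR
  have hr0 : ∀ x, 0 ≤ r x := fun x => le_trans (by positivity) (hr1 x)
  have hR0 : 0 ≤ R := integral_nonneg hr0
  have hR8 : R ≤ 1 / 8 := by
    refine hrE.trans ?_
    rw [div_le_iff₀ hC]
    linarith
  -- ρ and χ
  set ρ : E n → ℝ := fun x => max (r x - 1 / 2) 0 with hρ
  set χ : E n → ℝ := fun x => if 1 / 2 < r x then 1 else 0 with hχ
  have hset : MeasurableSet {x | 1 / 2 < r x} := measurableSet_lt measurable_const hrm
  have hχm : Measurable χ := Measurable.ite hset measurable_const measurable_const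
  have hχ1 : ∀ x, 1 / 2 < r x → χ x = 1 := fun x hx => if_pos hx
  have hχ2 : ∀ x, ¬ 1 / 2 < r x → χ x = 0 := fun x hx => if_neg hx
  have hρm : Measurable ρ := (hrm.sub_const _).max measurable_const
  have hχ01 : ∀ x, 0 ≤ χ x ∧ χ x ≤ 1 := by
    intro x
    by_cases hx : 1 / 2 < r x
    · have : χ x = 1 := hχ1 x hx
      rw [this]; norm_num
    · have : χ x = 0 := hχ2 x hx
      rw [this]; norm_num
  have hχi : Integrable χ μ := by
    refine Integrable.mono' (integrable_const (1:ℝ)) hχm.aestronglyMeasurable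
      (ae_of_all _ fun x => ?_)
    rw [Real.norm_of_nonneg (hχ01 x).1]
    exact (hχ01 x).2
  have hρ0 : ∀ x, 0 ≤ ρ x := fun x => le_max_right _ _
  have hρr : ∀ x, ρ x ≤ r x := fun x => max_le (by linarith [hr0 x]) (hr0 x)
  have hρi : Integrable ρ μ := by
    refine Integrable.mono' hri hρm.aestronglyMeasurable (ae_of_all _ fun x => ?_)
    rw [Real.norm_of_nonneg (hρ0 x)]
    exact hρr x
  have hρ2i : Integrable (fun x => ρ x ^ 2) μ := by
    refine Integrable.mono' hr2i (hρm.pow_const 2).aestronglyMeasurable (ae_of_all _ fun x => ?_)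
    rw [Real.norm_of_nonneg (sq_nonneg _)]
    exact pow_le_pow_left₀ (hρ0 x) (hρr x) 2
  set p := ∫ x, χ x ∂μ with hp
  set A := ∫ x, ρ x ^ 2 ∂μ with hA
  set V := ∫ x, (r x - R) ^ 2 ∂μ with hV
  have hVi : Integrable (fun x => (r x - R) ^ 2) μ := by
    have : (fun x => (r x - R) ^ 2) = fun x => r x ^ 2 - 2 * R * r x + R ^ 2 := by
      ext x; ring
    rw [this]
    exact (hr2i.sub (hri.const_mul _)).add (integrable_const _)
  have hp0 : 0 ≤ p := integral_nonneg fun x => (hχ01 x).1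
  have hA0 : 0 ≤ A := integral_nonneg fun x => sq_nonneg _
  have hV0 : 0 ≤ V := integral_nonneg fun x => sq_nonneg _
  -- p ≤ 16 V
  have hpV : p ≤ 16 * V := by
    rw [hp, hV, ← integral_const_mul]
    refine integral_mono hχi (hVi.const_mul 16) (fun x => ?_)
    by_cases hx : 1 / 2 < r x
    · have : χ x = 1 := hχ1 x hx
      simp only [this]
      nlinarith
    · have : χ x = 0 := hχ2 x hx
      simp only [this]
      positivity
  -- integrability of |s - ξ|²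
  have hsm : Measurable (fun x => s x - ξ) := (hsc.sub continuous_const).measurable
  have hs4 : ∀ x, ‖s x - ξ‖ ^ 2 ≤ 4 / C * r x := by
    intro x
    have h1 := hr1 x
    have : ‖s x - ξ‖ ^ 2 = 4 / C * (C / 4 * ‖s x - ξ‖ ^ 2) := by field_simp
    rw [this]
    exact mul_le_mul_of_nonneg_left h1 (by positivity)
  have hsi : Integrable (fun x => ‖s x - ξ‖ ^ 2) μ := by
    refine Integrable.mono' (hri.const_mul (4 / C)) (hsm.norm.pow_const 2).aestronglyMeasurable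
      (ae_of_all _ fun x => ?_)
    rw [Real.norm_of_nonneg (sq_nonneg _)]
    exact hs4 x
  -- Poincaré for ρ
  have hAp : A ≤ p := by
    set σ : E n → E n := fun x => if 1 / 2 < r x then s x - ξ else 0 with hσ
    have hσm : Measurable σ := Measurable.ite hset hsm measurable_const
    have hσ1 : ∀ x, 1 / 2 < r x → σ x = s x - ξ := fun x hx => if_pos hx
    have hσ2 : ∀ x, ¬ 1 / 2 < r x → σ x = 0 := fun x hx => if_neg hx
    have hσs : ∀ x, ‖σ x‖ ^ 2 ≤ 4 / C * (ρ x + χ x / 2) := by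
      intro x
      by_cases hx : 1 / 2 < r x
      · have e1 : χ x = 1 := hχ1 x hx
        have e2 : σ x = s x - ξ := hσ1 x hx
        have e3 : ρ x = r x - 1 / 2 := max_eq_left (by linarith)
        rw [e1, e2, e3]
        refine (hs4 x).trans (le_of_eq ?_)
        ring
      · have e1 : χ x = 0 := hχ2 x hx
        have e2 : σ x = 0 := hσ2 x hx
        rw [e1, e2]
        have h0 : 0 ≤ 4 / C * (ρ x + 0 / 2) := by have := hρ0 x; positivity
        rw [norm_zero]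
        linarith
    have hσi : Integrable (fun x => ‖σ x‖ ^ 2) μ := by
      refine Integrable.mono' ((hρi.add (hχi.div_const 2)).const_mul (4 / C))
        (hσm.norm.pow_const 2).aestronglyMeasurable (ae_of_all _ fun x => ?_)
      rw [Real.norm_of_nonneg (sq_nonneg _)]
      exact hσs x
    have hPo := hμ.poin ρ σ hρm hσm (fun x z => by
      by_cases hx : 1 / 2 < r x
      · have e2 : σ x = s x - ξ := hσ1 x hx
        have e3 : ρ x = r x - 1 / 2 := max_eq_left (by linarith)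
        rw [e2, e3]
        have := hrs x z
        have h2 : r z - 1 / 2 ≤ ρ z := le_max_left _ _
        linarith
      · have e2 : σ x = 0 := hσ2 x hx
        have e3 : ρ x = 0 := max_eq_right (by linarith [not_lt.1 hx])
        rw [e2, e3, inner_zero_left, add_zero]
        exact hρ0 z) hρ2i hσi
    set Q := ∫ x, ρ x ∂μ with hQ
    have hQ0 : 0 ≤ Q := integral_nonneg hρ0
    have hQR : Q ≤ R := integral_mono hρi hri hρr
    have hQA : Q ≤ (A + p) / 2 := by
      have : Q ≤ ∫ x, (ρ x ^ 2 + χ x) / 2 ∂μ := by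
        refine integral_mono hρi ((hρ2i.add hχi).div_const 2) (fun x => ?_)
        by_cases hx : 1 / 2 < r x
        · have e1 : χ x = 1 := hχ1 x hx
          simp only [e1]
          nlinarith [sq_nonneg (ρ x - 1)]
        · have e1 : χ x = 0 := hχ2 x hx
          have e3 : ρ x = 0 := max_eq_right (by linarith [not_lt.1 hx])
          simp only [e1, e3]
          norm_num
      rw [integral_div, integral_add hρ2i hχi] at this
      exact this
    have hσE : ∫ x, ‖σ x‖ ^ 2 ∂μ ≤ 4 / C * (Q + p / 2) := by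
      calc ∫ x, ‖σ x‖ ^ 2 ∂μ ≤ ∫ x, 4 / C * (ρ x + χ x / 2) ∂μ :=
            integral_mono hσi ((hρi.add (hχi.div_const 2)).const_mul (4 / C)) hσs
        _ = 4 / C * (Q + p / 2) := by
            rw [integral_const_mul, integral_add hρi (hχi.div_const 2), integral_div]
    have hvar : ∫ x, (ρ x - Q) ^ 2 ∂μ = A - Q ^ 2 := by
      have : (fun x => (ρ x - Q) ^ 2) = fun x => ρ x ^ 2 - 2 * Q * ρ x + Q ^ 2 := by
        ext x; ring
      have i1 : Integrable (fun x => ρ x ^ 2 - 2 * Q * ρ x) μ := hρ2i.sub (hρi.const_mul _)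
      rw [this, integral_add i1 (integrable_const _), integral_sub hρ2i (hρi.const_mul _),
        integral_const_mul, ← hQ]
      simp
      ring
    rw [hvar] at hPo
    have h1 : P * ∫ x, ‖σ x‖ ^ 2 ∂μ ≤ 1 / 4 * (Q + p / 2) := by
      calc P * ∫ x, ‖σ x‖ ^ 2 ∂μ ≤ P * (4 / C * (Q + p / 2)) :=
            mul_le_mul_of_nonneg_left hσE hP
        _ = (4 * P / C) * (Q + p / 2) := by ring
        _ ≤ 1 / 4 * (Q + p / 2) := by
            apply mul_le_mul_of_nonneg_right _ (by positivity)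
            rw [div_le_iff₀ hC]
            linarith
    have h2 : Q ^ 2 ≤ 1 / 8 * Q := by nlinarith
    nlinarith
  -- the bound for |s - ξ|²
  have hwi : Integrable (fun x => min (C / 8 * ‖s x‖ ^ 2) 1) μ := by
    refine Integrable.mono' (integrable_const (1:ℝ)) (by fun_prop) (ae_of_all _ fun x => ?_)
    rw [Real.norm_of_nonneg (le_min (by positivity) zero_le_one)]
    exact min_le_right _ _
  have hpt : ∀ x, ‖s x - ξ‖ ^ 2 ≤ 16 / C * (min (C / 8 * ‖s x‖ ^ 2) 1 + 2 * Vm) + 16 / C * ρ x ^ 2 := by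
    intro x
    have hVm0 : 0 ≤ 2 * Vm := le_trans (by positivity) hv0
    have hw0 : 0 ≤ min (C / 8 * ‖s x‖ ^ 2) 1 := le_min (by positivity) zero_le_one
    rcases le_or_gt (r x) 1 with hx | hx
    · have h1 : ‖s x - ξ‖ ^ 2 ≤ 4 / C := by
        refine (hs4 x).trans ?_
        calc 4 / C * r x ≤ 4 / C * 1 := mul_le_mul_of_nonneg_left hx (by positivity)
          _ = 4 / C := mul_one _
      have h2 : ‖s x - ξ‖ ^ 2 ≤ 16 / C * (C / 8 * ‖s x‖ ^ 2 + C / 8 * ‖ξ‖ ^ 2) := by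
        have h3 : ‖s x - ξ‖ ≤ ‖s x‖ + ‖ξ‖ := norm_sub_le _ _
        have h4 : ‖s x - ξ‖ ^ 2 ≤ (‖s x‖ + ‖ξ‖) ^ 2 :=
          pow_le_pow_left₀ (norm_nonneg _) h3 2
        have h5 : 16 / C * (C / 8 * ‖s x‖ ^ 2 + C / 8 * ‖ξ‖ ^ 2) = 2 * ‖s x‖ ^ 2 + 2 * ‖ξ‖ ^ 2 := by
          field_simp
          ring
        rw [h5]
        nlinarith [sq_nonneg (‖s x‖ - ‖ξ‖)]
      have h6 : ‖s x - ξ‖ ^ 2 ≤ 16 / C * (min (C / 8 * ‖s x‖ ^ 2) 1 + 2 * Vm) := by
        rcases le_total (C / 8 * ‖s x‖ ^ 2) 1 with h7 | h7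
        · rw [min_eq_left h7]
          refine h2.trans ?_
          apply mul_le_mul_of_nonneg_left _ (by positivity)
          linarith
        · rw [min_eq_right h7]
          refine h1.trans ?_
          have : 4 / C = 16 / C * (1 / 4) := by ring
          rw [this]
          apply mul_le_mul_of_nonneg_left _ (by positivity)
          linarith
      have h8 : 0 ≤ 16 / C * ρ x ^ 2 := by positivity
      linarith
    · have e3 : ρ x = r x - 1 / 2 := max_eq_left (by linarith)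
      have h1 : 4 / C * r x ≤ 16 / C * ρ x ^ 2 := by
        have : 4 / C * r x = 16 / C * (r x / 4) := by ring
        rw [this]
        apply mul_le_mul_of_nonneg_left _ (by positivity)
        rw [e3]
        nlinarith
      have h2 : 0 ≤ 16 / C * (min (C / 8 * ‖s x‖ ^ 2) 1 + 2 * Vm) := by positivity
      have := hs4 x
      linarith
  have hsE : ∫ x, ‖s x - ξ‖ ^ 2 ∂μ ≤ 48 / C * Vm + 16 / C * A := by
    have i1 : Integrable (fun x => 16 / C * (min (C / 8 * ‖s x‖ ^ 2) 1 + 2 * Vm)) μ :=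
      (hwi.add (integrable_const _)).const_mul _
    calc ∫ x, ‖s x - ξ‖ ^ 2 ∂μ
        ≤ ∫ x, (16 / C * (min (C / 8 * ‖s x‖ ^ 2) 1 + 2 * Vm) + 16 / C * ρ x ^ 2) ∂μ :=
          integral_mono hsi (i1.add (hρ2i.const_mul _)) hpt
      _ = 48 / C * Vm + 16 / C * A := by
          rw [integral_add i1 (hρ2i.const_mul _), integral_const_mul, integral_const_mul,
            integral_add hwi (integrable_const _), ← hVm]
          simp
          ring
  have hPo := hμ.poin r (fun x => s x - ξ) hrm hsm hrs hr2i hsi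
  rw [← hV] at hPo
  have h1 : V ≤ P * (48 / C * Vm + 16 / C * A) :=
    hPo.trans (mul_le_mul_of_nonneg_left hsE hP)
  have h2 : P * (16 / C * A) ≤ V / 2 := by
    have h3 : A ≤ 16 * V := hAp.trans hpV
    calc P * (16 / C * A) = 16 * P / C * A := by ring
      _ ≤ 16 * P / C * (16 * V) := mul_le_mul_of_nonneg_left h3 (by positivity)
      _ = 256 * P / C * V := by ring
      _ ≤ 1 / 2 * V := by
          apply mul_le_mul_of_nonneg_right _ hV0
          rw [div_le_iff₀ hC]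
          linarith
      _ = V / 2 := by ring
  have h3 : V ≤ P * (48 / C * Vm) + V / 2 := by
    have : P * (48 / C * Vm + 16 / C * A) = P * (48 / C * Vm) + P * (16 / C * A) := by ring
    linarith
  have h4 : 96 * P / C * Vm = 2 * (P * (48 / C * Vm)) := by ring
  linarith

end Star

end WT
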