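import Pool.Agent.WeakTransport.Star2

open MeasureTheory ProbabilityTheory InformationTheory Filter Topology
open scoped ENNReal NNReal RealInnerProductSpace

set_option linter.unusedSectionVars false

namespace WT

variable {n : ℕ}

section Star

variable {μ : Measure (E n)} [IsProbabilityMeasure μ] {m : E n} {ε κ P M C : ℝ}

/-- regime II -/
lemma regimeII (hμ : Good μ m ε κ P M) (hε : 0 < ε) (hP : 0 ≤ P) (hC : 0 < C) (hC16 : 16 ≤ C)
    (hCS : 80 * (M / ε) ≤ C) (hCP : 512 * P ≤ C)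
    (hCL : 1280 * (M / ε) + 7680 * P + 8192 * (2 / ε * Real.exp (1 / (2 * ε)) * M) ≤ C)
    {g : E n → ℝ} {s : E n → E n} (hsc : Continuous s) (hgc : Continuous g)
    (x₀ : E n) (r : E n → ℝ) (hrm : Measurable r)
    (hr1 : ∀ x, C / 4 * ‖s x - s x₀‖ ^ 2 ≤ r x)
    (hri : Integrable r μ) (hr2i : Integrable (fun x => r x ^ 2) μ)
    (hrE : ∫ x, r x ∂μ ≤ 10 * (M / ε) / C)
    (hrs : ∀ x z, r x + ⟪s x - s x₀, z - x⟫ ≤ r z)
    (hgi : Integrable g μ)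
    (hgr : ∀ x, g x - ∫ y, g y ∂μ = ⟪s x₀, x - m⟫ + r x - ∫ y, r y ∂μ)
    (Vm : ℝ) (hVm : Vm = ∫ x, min (C / 8 * ‖s x‖ ^ 2) 1 ∂μ)
    (hv0 : C / 8 * ‖s x₀‖ ^ 2 ≤ 2 * Vm) :
    ∫ x, Real.exp (-(g x - ∫ y, g y ∂μ) - C / 8 * ‖s x‖ ^ 2) ∂μ ≤ 1 := by
  have hvar := var_bound hμ hP hC hCS hCP hsc x₀ r hrm hr1 hri hr2i hrE hrs Vm hVm hv0
  obtain ⟨hu2, hu2'⟩ := hμ.int_sq hε
  obtain ⟨hue, hue'⟩ := hμ.int_sq_exp hε
  set S := M / ε with hS
  set L := 2 / ε * Real.exp (1 / (2 * ε)) * M with hL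
  set ξ := s x₀ with hξ
  set R := ∫ y, r y ∂μ with hR
  set gb : E n → ℝ := fun x => g x - ∫ y, g y ∂μ with hgb
  have hr0 : ∀ x, 0 ≤ r x := fun x => le_trans (by positivity) (hr1 x)
  have hR0 : 0 ≤ R := integral_nonneg hr0
  have hR8 : R ≤ 1 / 8 := by
    refine hrE.trans ?_
    rw [div_le_iff₀ hC]
    linarith
  have hwi : Integrable (fun x => min (C / 8 * ‖s x‖ ^ 2) 1) μ := by
    refine Integrable.mono' (integrable_const (1:ℝ)) (by fun_prop) (ae_of_all _ fun x => ?_)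
    rw [Real.norm_of_nonneg (le_min (by positivity) zero_le_one)]
    exact min_le_right _ _
  have hVm0 : 0 ≤ Vm := by
    rw [hVm]; exact integral_nonneg fun x => le_min (by positivity) zero_le_one
  have hVm1 : Vm ≤ 1 := by
    rw [hVm]
    have : ∫ x, min (C / 8 * ‖s x‖ ^ 2) 1 ∂μ ≤ ∫ x, (1:ℝ) ∂μ :=
      integral_mono hwi (integrable_const _) (fun x => min_le_right _ _)
    simpa using this
  have hξ2 : ‖ξ‖ ^ 2 ≤ 16 / C * Vm := by
    have : ‖ξ‖ ^ 2 = 8 / C * (C / 8 * ‖ξ‖ ^ 2) := by field_simp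
    rw [this]
    calc 8 / C * (C / 8 * ‖ξ‖ ^ 2) ≤ 8 / C * (2 * Vm) :=
          mul_le_mul_of_nonneg_left hv0 (by positivity)
      _ = 16 / C * Vm := by ring
  have hξ1 : ‖ξ‖ ≤ 1 := by
    have h1 : ‖ξ‖ ^ 2 ≤ 1 := by
      refine hξ2.trans ?_
      calc 16 / C * Vm ≤ 16 / C * 1 := mul_le_mul_of_nonneg_left hVm1 (by positivity)
        _ ≤ 1 := by rw [mul_one, div_le_one hC]; exact hC16
    nlinarith [norm_nonneg ξ]
  -- pointwise
  have hpt : ∀ x, Real.exp (-(g x - ∫ y, g y ∂μ) - C / 8 * ‖s x‖ ^ 2)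
      ≤ 1 - gb x + 10 * gb x ^ 2 - min (C / 8 * ‖s x‖ ^ 2) 1 / 4
        + 128 * ‖ξ‖ ^ 2 * (‖x - m‖ ^ 2 * Real.exp ‖x - m‖) := by
    intro x
    refine pointwise_ineq (g := gb x) (by positivity) rfl (by positivity) (fun hg => ?_)
    have h1 : -(‖ξ‖ * ‖x - m‖) ≤ ⟪ξ, x - m⟫ := by
      have := abs_real_inner_le_norm ξ (x - m)
      exact neg_le_of_abs_le this
    have h2 : gb x = ⟪ξ, x - m⟫ + r x - R := hgr x
    have h3 := hr0 x
    have h4 : 1 / 8 < ‖ξ‖ * ‖x - m‖ := by linarith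
    have h5 : 1 ≤ 64 * (‖ξ‖ * ‖x - m‖) ^ 2 := by nlinarith
    have h6 : ‖ξ‖ * ‖x - m‖ ≤ ‖x - m‖ := by
      have := mul_le_mul_of_nonneg_right hξ1 (norm_nonneg (x - m))
      linarith
    have h7 : Real.exp (-gb x) ≤ 2 * Real.exp ‖x - m‖ := by
      have h8 : Real.exp (-gb x) ≤ Real.exp (1 / 8 + ‖x - m‖) :=
        Real.exp_le_exp.2 (by linarith)
      have h9 : Real.exp (1 / 8) ≤ 2 := by
        have h10 : |(1 / 8 : ℝ)| ≤ 1 := by rw [abs_le]; constructor <;> norm_num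
        have h4 := Real.abs_exp_sub_one_sub_id_le h10
        have h5 := le_of_abs_le h4
        linarith
      rw [Real.exp_add] at h8
      refine h8.trans (mul_le_mul_of_nonneg_right h9 (Real.exp_pos _).le)
    calc Real.exp (-gb x) ≤ 2 * Real.exp ‖x - m‖ := h7
      _ ≤ (2 * Real.exp ‖x - m‖) * (64 * (‖ξ‖ * ‖x - m‖) ^ 2) :=
          le_mul_of_one_le_right (by positivity) h5
      _ = _ := by ring
  -- integrability
  have hgbi : Integrable gb μ := hgi.sub (integrable_const _)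
  have hgb0 : ∫ x, gb x ∂μ = 0 := by
    simp only [hgb]
    rw [integral_sub hgi (integrable_const _)]
    simp
  set V := ∫ x, (r x - R) ^ 2 ∂μ with hV
  have hVi : Integrable (fun x => (r x - R) ^ 2) μ := by
    have : (fun x => (r x - R) ^ 2) = fun x => r x ^ 2 - 2 * R * r x + R ^ 2 := by
      ext x; ring
    rw [this]
    exact (hr2i.sub (hri.const_mul _)).add (integrable_const _)
  have hgb2 : ∀ x, gb x ^ 2 ≤ 2 * ‖ξ‖ ^ 2 * ‖x - m‖ ^ 2 + 2 * (r x - R) ^ 2 := by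
    intro x
    have h2 : gb x = ⟪ξ, x - m⟫ + (r x - R) := by
      have := hgr x
      simp only [hgb]; rw [this]; ring
    have h1 : ⟪ξ, x - m⟫ ^ 2 ≤ (‖ξ‖ * ‖x - m‖) ^ 2 := by
      rw [← sq_abs]
      exact pow_le_pow_left₀ (abs_nonneg _) (abs_real_inner_le_norm ξ (x - m)) 2
    rw [h2]
    nlinarith [sq_nonneg (⟪ξ, x - m⟫ - (r x - R))]
  have hbi : Integrable (fun x => 2 * ‖ξ‖ ^ 2 * ‖x - m‖ ^ 2 + 2 * (r x - R) ^ 2) μ :=
    (hu2.const_mul _).add (hVi.const_mul _)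
  have hgbm : Measurable gb := hgc.measurable.sub_const _
  have hgb2i : Integrable (fun x => gb x ^ 2) μ := by
    refine Integrable.mono' hbi (hgbm.pow_const 2).aestronglyMeasurable (ae_of_all _ fun x => ?_)
    rw [Real.norm_of_nonneg (sq_nonneg _)]
    exact hgb2 x
  have hgb2E : ∫ x, gb x ^ 2 ∂μ ≤ 2 * ‖ξ‖ ^ 2 * S + 2 * V := by
    calc ∫ x, gb x ^ 2 ∂μ ≤ ∫ x, (2 * ‖ξ‖ ^ 2 * ‖x - m‖ ^ 2 + 2 * (r x - R) ^ 2) ∂μ :=
          integral_mono hgb2i hbi hgb2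
      _ = 2 * ‖ξ‖ ^ 2 * ∫ x, ‖x - m‖ ^ 2 ∂μ + 2 * V := by
          rw [integral_add (hu2.const_mul _) (hVi.const_mul _), integral_const_mul,
            integral_const_mul]
      _ ≤ 2 * ‖ξ‖ ^ 2 * S + 2 * V := by
          have := mul_le_mul_of_nonneg_left hu2' (show 0 ≤ 2 * ‖ξ‖ ^ 2 by positivity)
          linarith
  have i1 : Integrable (fun x => 1 - gb x) μ := (integrable_const _).sub hgbi
  have i2 : Integrable (fun x => 1 - gb x + 10 * gb x ^ 2) μ := i1.add (hgb2i.const_mul 10)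
  have i3 : Integrable (fun x => 1 - gb x + 10 * gb x ^ 2 - min (C / 8 * ‖s x‖ ^ 2) 1 / 4) μ :=
    i2.sub (hwi.div_const 4)
  have i4 : Integrable (fun x => 128 * ‖ξ‖ ^ 2 * (‖x - m‖ ^ 2 * Real.exp ‖x - m‖)) μ :=
    hue.const_mul _
  calc ∫ x, Real.exp (-(g x - ∫ y, g y ∂μ) - C / 8 * ‖s x‖ ^ 2) ∂μ
      ≤ ∫ x, (1 - gb x + 10 * gb x ^ 2 - min (C / 8 * ‖s x‖ ^ 2) 1 / 4
        + 128 * ‖ξ‖ ^ 2 * (‖x - m‖ ^ 2 * Real.exp ‖x - m‖)) ∂μ :=
        integral_mono_of_nonneg (ae_of_all _ fun x => (Real.exp_pos _).le) (i3.add i4)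
          (ae_of_all _ hpt)
    _ = 1 + 10 * ∫ x, gb x ^ 2 ∂μ - Vm / 4
        + 128 * ‖ξ‖ ^ 2 * ∫ x, ‖x - m‖ ^ 2 * Real.exp ‖x - m‖ ∂μ := by
        rw [integral_add i3 i4, integral_sub i2 (hwi.div_const 4),
          integral_add i1 (hgb2i.const_mul 10), integral_sub (integrable_const _) hgbi,
          integral_const_mul, integral_const_mul, integral_div, hgb0, ← hVm]
        simp
    _ ≤ 1 + 10 * (2 * ‖ξ‖ ^ 2 * S + 2 * V) - Vm / 4 + 128 * ‖ξ‖ ^ 2 * L := by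
        have h1 := mul_le_mul_of_nonneg_left hue' (show 0 ≤ 128 * ‖ξ‖ ^ 2 by positivity)
        linarith
    _ ≤ 1 := by
        have hS0 : 0 ≤ S := le_trans (integral_nonneg fun x => sq_nonneg _) hu2'
        have hL0 : 0 ≤ L := le_trans (integral_nonneg fun x => by positivity) hue'
        have h1 : ‖ξ‖ ^ 2 * S ≤ 16 / C * Vm * S := mul_le_mul_of_nonneg_right hξ2 hS0
        have h2 : ‖ξ‖ ^ 2 * L ≤ 16 / C * Vm * L := mul_le_mul_of_nonneg_right hξ2 hL0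
        have h3 : (320 * S + 1920 * P + 2048 * L) / C ≤ 1 / 4 := by
          rw [div_le_iff₀ hC]; linarith
        have h4 : (320 * S + 1920 * P + 2048 * L) / C * Vm ≤ 1 / 4 * Vm :=
          mul_le_mul_of_nonneg_right h3 hVm0
        have h5 : (320 * S + 1920 * P + 2048 * L) / C * Vm
          = 20 * (16 / C * Vm * S) + 20 * (96 * P / C * Vm) + 128 * (16 / C * Vm * L) := by ring
        linarith

/-- the constant -/
noncomputable def C0 (ε κ P M : ℝ) : ℝ :=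
  16 + 32 * κ + 1280 * (M / ε) + 7680 * P + 8192 * (2 / ε * Real.exp (1 / (2 * ε)) * M)

/-- the key exponential inequality -/
theorem star (hμ : Good μ m ε κ P M) (hε : 0 < ε) (hκ : 0 ≤ κ) (hP : 0 ≤ P) (hM : 1 ≤ M)
    (hC : C = C0 ε κ P M) {g : E n → ℝ} {s : E n → E n}
    (hG1 : ∀ x z, g x + ⟪s x, z - x⟫ + C / 4 * ‖s z - s x‖ ^ 2 ≤ g z)
    (hG2 : ∀ x z, g z ≤ g x + ⟪s x, z - x⟫ + ‖z - x‖ ^ 2 / C) :
    ∫ x, Real.exp (-(g x - ∫ y, g y ∂μ) - C / 8 * ‖s x‖ ^ 2) ∂μ ≤ 1 := by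
  have hS0 : 0 < M / ε := by positivity
  have hL0 : 0 < 2 / ε * Real.exp (1 / (2 * ε)) * M := by positivity
  have hC16 : 16 ≤ C := by rw [hC]; unfold C0; linarith
  have hC0 : 0 < C := by linarith
  have hCκ : 32 * κ ≤ C := by rw [hC]; unfold C0; linarith
  have hCS : 80 * (M / ε) ≤ C := by rw [hC]; unfold C0; linarith
  have hCP : 512 * P ≤ C := by rw [hC]; unfold C0; linarith
  have hCL : 1280 * (M / ε) + 7680 * P + 8192 * (2 / ε * Real.exp (1 / (2 * ε)) * M) ≤ C := by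
    rw [hC]; unfold C0; linarith
  obtain ⟨hsc, hgc⟩ := cont_s hC0 hG1 hG2
  obtain ⟨hu2, hu2'⟩ := hμ.int_sq hε
  obtain ⟨Vm, hVm⟩ : ∃ V, V = ∫ x, min (C / 8 * ‖s x‖ ^ 2) 1 ∂μ := ⟨_, rfl⟩
  have hwi : Integrable (fun x => min (C / 8 * ‖s x‖ ^ 2) 1) μ := by
    refine Integrable.mono' (integrable_const (1:ℝ)) (by fun_prop) (ae_of_all _ fun x => ?_)
    rw [Real.norm_of_nonneg (le_min (by positivity) zero_le_one)]
    exact min_le_right _ _
  have hw0 : ∀ x, 0 ≤ min (C / 8 * ‖s x‖ ^ 2) 1 := fun x => le_min (by positivity) zero_le_one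
  have hVm0 : 0 ≤ Vm := by rw [hVm]; exact integral_nonneg hw0
  -- choice of the base point
  obtain ⟨x₀, hx₀, hw₀⟩ : ∃ x₀ : E n, ‖x₀ - m‖ ^ 2 ≤ 4 * (M / ε) ∧
      min (C / 8 * ‖s x₀‖ ^ 2) 1 ≤ 2 * Vm := by
    by_contra hcon
    push Not at hcon
    rcases eq_or_lt_of_le hVm0 with hV | hV
    · have h1 : (fun x => min (C / 8 * ‖s x‖ ^ 2) 1) =ᵐ[μ] 0 :=
        (integral_eq_zero_iff_of_nonneg hw0 hwi).1 (by rw [← hVm]; exact hV.symm)
      have h2 : ∫ x, 4 * (M / ε) ∂μ ≤ ∫ x, ‖x - m‖ ^ 2 ∂μ := by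
        refine integral_mono_ae (integrable_const _) hu2 ?_
        filter_upwards [h1] with x hx
        by_contra h3
        have h4 := hcon x (not_le.1 h3).le
        simp only [Pi.zero_apply] at hx
        rw [hx, ← hV] at h4
        linarith
      simp only [integral_const, probReal_univ, one_smul] at h2
      linarith
    · have h1 : ∫ x, (1:ℝ) ∂μ
          ≤ ∫ x, (1 / (4 * (M / ε)) * ‖x - m‖ ^ 2 + 1 / (2 * Vm) * min (C / 8 * ‖s x‖ ^ 2) 1) ∂μ := by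
        refine integral_mono (integrable_const _) ((hu2.const_mul _).add (hwi.const_mul _))
          (fun x => ?_)
        show (1:ℝ) ≤ 1 / (4 * (M / ε)) * ‖x - m‖ ^ 2 + 1 / (2 * Vm) * min (C / 8 * ‖s x‖ ^ 2) 1
        have a1 : 0 ≤ 1 / (4 * (M / ε)) * ‖x - m‖ ^ 2 := by positivity
        have a2 : 0 ≤ 1 / (2 * Vm) * min (C / 8 * ‖s x‖ ^ 2) 1 :=
          mul_nonneg (by positivity) (hw0 x)
        rcases le_or_gt (‖x - m‖ ^ 2) (4 * (M / ε)) with h | h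
        · have h4 := hcon x h
          have : 1 ≤ 1 / (2 * Vm) * min (C / 8 * ‖s x‖ ^ 2) 1 := by
            rw [one_div_mul_eq_div, le_div_iff₀ (by positivity)]
            linarith
          linarith
        · have : 1 ≤ 1 / (4 * (M / ε)) * ‖x - m‖ ^ 2 := by
            rw [one_div_mul_eq_div, le_div_iff₀ (by positivity)]
            linarith
          linarith
      rw [integral_add (hu2.const_mul _) (hwi.const_mul _), integral_const_mul,
        integral_const_mul, ← hVm] at h1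
      simp only [integral_const, probReal_univ, one_smul] at h1
      have h2 : 1 / (4 * (M / ε)) * ∫ x, ‖x - m‖ ^ 2 ∂μ ≤ 1 / 4 := by
        clear h1
        calc 1 / (4 * (M / ε)) * ∫ x, ‖x - m‖ ^ 2 ∂μ ≤ 1 / (4 * (M / ε)) * (M / ε) :=
              mul_le_mul_of_nonneg_left hu2' (by positivity)
          _ = 1 / 4 := by field_simp
      have h3 : 1 / (2 * Vm) * Vm = 1 / 2 := by field_simp
      rw [h3] at h1
      linarith
  obtain ⟨r, hrm, hr1, hr2, hri, hr2i, hrE, hrs, hgi, hgr⟩ :=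
    remainder_facts hμ hε hC0 hG1 hG2 x₀ hx₀
  rcases le_or_gt (40 * (M / ε) / C) (C / 8 * ‖s x₀‖ ^ 2) with h | h
  · exact regimeI hμ hε hC0 hCκ x₀ r hr1 hrE hgr h
  · have h1 : C / 8 * ‖s x₀‖ ^ 2 ≤ 1 := by
      refine h.le.trans ?_
      rw [div_le_one hC0]
      linarith
    rw [min_eq_left h1] at hw₀
    exact regimeII hμ hε hP hC0 hC16 hCS hCP hCL hsc hgc x₀ r hrm hr1 hri hr2i hrE hrs hgi hgr
      Vm hVm hw₀

/-- integrability of the exponential in `star` -/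
theorem star_int (hμ : Good μ m ε κ P M) (hε : 0 < ε) (hM : 1 ≤ M)
    (hC0 : 0 < C) {g : E n → ℝ} {s : E n → E n}
    (hG1 : ∀ x z, g x + ⟪s x, z - x⟫ + C / 4 * ‖s z - s x‖ ^ 2 ≤ g z)
    (hG2 : ∀ x z, g z ≤ g x + ⟪s x, z - x⟫ + ‖z - x‖ ^ 2 / C) :
    Integrable g μ ∧
    Integrable (fun x => Real.exp (-(g x - ∫ y, g y ∂μ) - C / 8 * ‖s x‖ ^ 2)) μ := by
  obtain ⟨hsc, hgc⟩ := cont_s hC0 hG1 hG2
  have hx₀ : ‖m - m‖ ^ 2 ≤ 4 * (M / ε) := by
    have : 0 ≤ M / ε := div_nonneg (by linarith) hε.le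
    rw [sub_self, norm_zero]
    linarith
  obtain ⟨r, hrm, hr1, hr2, hri, hr2i, hrE, hrs, hgi, hgr⟩ :=
    remainder_facts hμ hε hC0 hG1 hG2 m hx₀
  refine ⟨hgi, ?_⟩
  refine Integrable.mono' ((hμ.int_exp hε ‖s m‖).const_mul (Real.exp (∫ y, r y ∂μ)))
    (by fun_prop) (ae_of_all _ fun x => ?_)
  rw [Real.norm_of_nonneg (Real.exp_pos _).le, ← Real.exp_add]
  apply Real.exp_le_exp.2
  rw [hgr x]
  have h1 : -(‖s m‖ * ‖x - m‖) ≤ ⟪s m, x - m⟫ := by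
    have := abs_real_inner_le_norm (s m) (x - m)
    exact neg_le_of_abs_le this
  have h2 : 0 ≤ C / 8 * ‖s x‖ ^ 2 := by positivity
  have h3 : 0 ≤ r x := le_trans (by positivity) (hr1 x)
  linarith

end Star

end WT
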